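import Pool.Agent.H369R2.TD.Det

/-!
# Determinant codes for systems with gap `a`

Every vertex gets a random vector of `F^(r+a-1)`.  A set `S` of `r + a` vertices carries a linear
dependency `α`; if `α` has at least `a` zeros in `S` then the zeros contain a block of a (randomly
permuted) system with gap `a`, and its union with the support of `α` is a block of size `r`.
-/

set_option autoImplicit false

open Finset

namespace Pool.Agent.J4.H41.GL

open Pool.Agent.H369R2.TD Pool.Agent.H369R2.TD.Det

/-- a system of `k`-sets with a member in every `(k+a)`-set, of relative size at most `δ` -/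
def TurG (a k : ℕ) (δ : ℝ) : Prop :=
  ∀ n : ℕ, ∃ T : Finset (Finset (Fin n)), (∀ Z ∈ T, Z.card = k) ∧
    (∀ Y : Finset (Fin n), Y.card = k + a → ∃ Z ∈ T, Z ⊆ Y) ∧ (T.card : ℝ) ≤ δ * (n.choose k : ℝ)

open Classical in
/-- a random family of `r`-sets: a set is a member with probability at most `ρ`, and an
`(r+a)`-set contains no member with probability at most `Φ` -/
def RndG (a n r : ℕ) (ρ Φ : ℝ) : Prop :=
  ∃ (Ω : Type) (_ : Fintype Ω) (_ : Nonempty Ω) (A : Ω → Finset (Finset (Fin n))),
    (∀ ω, ∀ Z ∈ A ω, Z.card = r) ∧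
    (∀ Z : Finset (Fin n), Z.card = r →
      ((univ.filter fun ω => Z ∈ A ω).card : ℝ) ≤ ρ * (Fintype.card Ω : ℝ)) ∧
    (∀ Y : Finset (Fin n), Y.card = r + a →
      ((univ.filter fun ω => ¬ ∃ Z ∈ A ω, Z ⊆ Y).card : ℝ) ≤ Φ * (Fintype.card Ω : ℝ))

/-- the density of the code -/
noncomputable def gA (a r q : ℕ) (δ : ℕ → ℝ) : ℝ :=
  ∑ m ∈ range r, (r.choose m : ℝ) * ((q : ℝ) - 1) ^ (r - m - 1) / (q : ℝ) ^ (r + a - 1) * δ m

/-- the failure probability -/
noncomputable def gF (a r q : ℕ) : ℝ :=
  ∑ m ∈ range a, ((r + a).choose m : ℝ) * ((q : ℝ) - 1) ^ (r + a - m - 1) /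
    (q : ℝ) ^ (r + a - 1)

section

variable {F : Type} [Field F] [Fintype F] [DecidableEq F] {n D : ℕ}

open Classical in
/-- the random family -/
noncomputable def famG (r : ℕ) (T : ℕ → Finset (Finset (Fin n))) (ω : Om F n D) :
    Finset (Finset (Fin n)) :=
  ((univ : Finset (Fin n)).powersetCard r).filter fun e => ∃ α : Fin n → F, Good T ω e α

theorem sdiff_lt {r : ℕ} {e : Finset (Fin n)} (he : e.card = r) {α : Fin n → F} (hα : α ≠ 0)
    (hs : ∀ v, v ∉ e → α v = 0) : (e \ supp α).card < r := by
  rw [← he]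
  apply Finset.card_lt_card
  rw [Finset.ssubset_iff_subset_ne]
  refine ⟨sdiff_subset, fun hE => hα ?_⟩
  ext v
  by_contra hv
  have hv' : α v ≠ 0 := hv
  have hve : v ∈ e := by
    by_contra hh; exact hv' (hs v hh)
  have : v ∈ e \ supp α := by rw [hE]; exact hve
  rw [mem_sdiff] at this
  exact this.2 (by simp [supp, hv'])

theorem count_goodG {r : ℕ} {T : ℕ → Finset (Finset (Fin n))} {δ : ℕ → ℝ}
    (hT1 : ∀ m, m < r → ∀ Z ∈ T m, Z.card = m)
    (hT3 : ∀ m, m < r → ((T m).card : ℝ) ≤ δ m * (n.choose m : ℝ))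
    (e : Finset (Fin n)) (he : e.card = r) (α : Fin n → F) (hα : α ≠ 0)
    (hs : ∀ v, v ∉ e → α v = 0) :
    ((univ.filter fun ω : Om F n D => ∑ v, α v • ω.1 v = 0 ∧
        (e \ supp α).map (ω.2 (supp α)).toEmbedding ∈ T (e \ supp α).card).card : ℝ)
      ≤ δ (e \ supp α).card / (Fintype.card F : ℝ) ^ D * (Fintype.card (Om F n D) : ℝ) := by
  classical
  have hlt : (e \ supp α).card < r := sdiff_lt he hα hs
  have hsplit : (univ.filter fun ω : Om F n D => ∑ v, α v • ω.1 v = 0 ∧
        (e \ supp α).map (ω.2 (supp α)).toEmbedding ∈ T (e \ supp α).card)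
      = (univ.filter fun ξ : Fin n → Fin D → F => ∑ v, α v • ξ v = 0) ×ˢ
        (univ.filter fun π : Finset (Fin n) → Equiv.Perm (Fin n) =>
          (e \ supp α).map (π (supp α)).toEmbedding ∈ T (e \ supp α).card) := by
    ext ω
    simp only [mem_filter, mem_univ, true_and, mem_product]
  rw [hsplit, Finset.card_product, Nat.cast_mul]
  have hq : (0 : ℝ) < (Fintype.card F : ℝ) := by exact_mod_cast Fintype.card_pos
  have c1 := dep_count (d := D) α hα
  have c2 := coord_count (supp α)
    (fun p : Equiv.Perm (Fin n) => (e \ supp α).map p.toEmbedding ∈ T (e \ supp α).card)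
  have c3 := perm_count (δ := δ (e \ supp α).card) (T (e \ supp α).card) (hT1 _ hlt) (hT3 _ hlt)
    (e \ supp α) rfl
  have hP : (0 : ℝ) < (Fintype.card (Equiv.Perm (Fin n)) : ℝ) := by exact_mod_cast Fintype.card_pos
  have c4 : ((univ.filter fun π : Finset (Fin n) → Equiv.Perm (Fin n) =>
          (e \ supp α).map (π (supp α)).toEmbedding ∈ T (e \ supp α).card).card : ℝ)
      ≤ δ (e \ supp α).card * (Fintype.card (Finset (Fin n) → Equiv.Perm (Fin n)) : ℝ) := by
    have h5 : ((univ.filter fun π : Finset (Fin n) → Equiv.Perm (Fin n) =>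
          (e \ supp α).map (π (supp α)).toEmbedding ∈ T (e \ supp α).card).card : ℝ)
          * (Fintype.card (Equiv.Perm (Fin n)) : ℝ)
        ≤ (δ (e \ supp α).card * (Fintype.card (Finset (Fin n) → Equiv.Perm (Fin n)) : ℝ))
          * (Fintype.card (Equiv.Perm (Fin n)) : ℝ) := by
      rw [c2]
      calc _ ≤ (δ (e \ supp α).card * (Fintype.card (Equiv.Perm (Fin n)) : ℝ))
            * (Fintype.card (Finset (Fin n) → Equiv.Perm (Fin n)) : ℝ) := by
            gcongr
        _ = _ := by ring
    exact le_of_mul_le_mul_right h5 hP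
  have hqd : (0 : ℝ) < (Fintype.card F : ℝ) ^ D := by positivity
  have c5 : ((univ.filter fun ξ : Fin n → Fin D → F => ∑ v, α v • ξ v = 0).card : ℝ)
      = (Fintype.card (Fin n → Fin D → F) : ℝ) / (Fintype.card F : ℝ) ^ D := by
    rw [eq_div_iff hqd.ne', c1]
  rw [c5, Fintype.card_prod, Nat.cast_mul]
  calc _ ≤ (Fintype.card (Fin n → Fin D → F) : ℝ) / (Fintype.card F : ℝ) ^ D *
        (δ (e \ supp α).card * (Fintype.card (Finset (Fin n) → Equiv.Perm (Fin n)) : ℝ)) := by
        gcongr
    _ = _ := by ring

/-- probability of one dependency on the sample space -/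
theorem dep_Om (α : Fin n → F) (hα : α ≠ 0) :
    ((univ.filter fun ω : Om F n D => ∑ v, α v • ω.1 v = 0).card : ℝ)
      = (Fintype.card (Om F n D) : ℝ) / (Fintype.card F : ℝ) ^ D := by
  have hq : (0 : ℝ) < (Fintype.card F : ℝ) := by exact_mod_cast Fintype.card_pos
  have hqd : (0 : ℝ) < (Fintype.card F : ℝ) ^ D := by positivity
  have hsplit : (univ.filter fun ω : Om F n D => ∑ v, α v • ω.1 v = 0)
      = (univ.filter fun ξ : Fin n → Fin D → F => ∑ v, α v • ξ v = 0) ×ˢ
        (univ : Finset (Finset (Fin n) → Equiv.Perm (Fin n))) := by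
    ext ω
    simp only [mem_filter, mem_univ, true_and, mem_product, and_true]
  rw [hsplit, Finset.card_product, Nat.cast_mul, eq_div_iff hqd.ne', mul_right_comm,
    dep_count (d := D) α hα, Fintype.card_prod, Nat.cast_mul, Finset.card_univ]

theorem supp_zero : supp (0 : Fin n → F) = ∅ := by ext v; simp [supp]

end

theorem det_rndG (F : Type) [Field F] [Fintype F] {a r : ℕ} (ha : 1 ≤ a) {δ : ℕ → ℝ}
    (hδ : ∀ m, m < r → TurG a m (δ m)) (n : ℕ) :
    RndG a n r (gA a r (Fintype.card F) δ) (gF a r (Fintype.card F)) := by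
  classical
  set D : ℕ := r + a - 1 with hD
  have hex : ∀ m, ∃ T : Finset (Finset (Fin n)), m < r → (∀ Z ∈ T, Z.card = m) ∧
    (∀ Y : Finset (Fin n), Y.card = m + a → ∃ Z ∈ T, Z ⊆ Y) ∧
      (T.card : ℝ) ≤ δ m * (n.choose m : ℝ) := by
    intro m
    by_cases hm : m < r
    · obtain ⟨T, hT⟩ := hδ m hm n
      exact ⟨T, fun _ => hT⟩
    · exact ⟨∅, fun h => absurd h hm⟩
  choose T hT using hex
  have hT1 : ∀ m, m < r → ∀ Z ∈ T m, Z.card = m := fun m hm => (hT m hm).1
  have hT2 : ∀ m, m < r → ∀ Y : Finset (Fin n), Y.card = m + a → ∃ Z ∈ T m, Z ⊆ Y :=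
    fun m hm => (hT m hm).2.1
  have hT3 : ∀ m, m < r → ((T m).card : ℝ) ≤ δ m * (n.choose m : ℝ) := fun m hm => (hT m hm).2.2
  have hq1 : 1 < Fintype.card F := Fintype.one_lt_card
  have hq : (0 : ℝ) < (Fintype.card F : ℝ) := by exact_mod_cast Fintype.card_pos
  have hq' : (0 : ℝ) < (Fintype.card F : ℝ) - 1 := by
    have : (1 : ℝ) < (Fintype.card F : ℝ) := by exact_mod_cast hq1
    linarith
  have hqc : ((Fintype.card F - 1 : ℕ) : ℝ) = (Fintype.card F : ℝ) - 1 := by
    rw [Nat.cast_sub hq1.le]; simp
  have hqd : (0 : ℝ) < (Fintype.card F : ℝ) ^ D := by positivity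
  refine ⟨Om F n D, inferInstance, inferInstance, famG r T, ?_, ?_, ?_⟩
  · intro ω Z hZ
    rw [famG, mem_filter, mem_powersetCard] at hZ
    exact hZ.1.2
  · -- density
    intro e he
    have key : ((Fintype.card F - 1 : ℕ) : ℝ) *
        ((univ.filter fun ω : Om F n D => e ∈ famG r T ω).card : ℝ)
        ≤ ∑ α ∈ univ.filter (fun α : Fin n → F => α ≠ 0 ∧ ∀ v, v ∉ e → α v = 0),
          δ (e \ supp α).card / (Fintype.card F : ℝ) ^ D * (Fintype.card (Om F n D) : ℝ) := by
      have s1 : (Fintype.card F - 1) * (univ.filter fun ω : Om F n D => e ∈ famG r T ω).card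
          ≤ ∑ ω : Om F n D, (univ.filter fun α : Fin n → F => Good T ω e α).card := by
        calc (Fintype.card F - 1) * (univ.filter fun ω : Om F n D => e ∈ famG r T ω).card
            = ∑ ω ∈ univ.filter (fun ω : Om F n D => e ∈ famG r T ω), (Fintype.card F - 1) := by
              rw [Finset.sum_const, smul_eq_mul, mul_comm]
          _ ≤ ∑ ω ∈ univ.filter (fun ω : Om F n D => e ∈ famG r T ω),
                (univ.filter fun α : Fin n → F => Good T ω e α).card := by
              apply Finset.sum_le_sum
              intro ω hω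
              rw [mem_filter] at hω
              have h2 := hω.2
              rw [famG, mem_filter] at h2
              obtain ⟨α, hα⟩ := h2.2
              apply scalar_count
              · exact ⟨α, by rw [mem_filter]; exact ⟨mem_univ _, hα⟩⟩
              · intro β hβ; rw [mem_filter] at hβ; exact hβ.2.1
              · intro β hβ c hc; rw [mem_filter] at hβ ⊢
                exact ⟨mem_univ _, hβ.2.smul hc⟩
          _ ≤ _ := Finset.sum_le_sum_of_subset (filter_subset _ _)
      have s2 : ∑ ω : Om F n D, (univ.filter fun α : Fin n → F => Good T ω e α).card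
          = ∑ α ∈ univ.filter (fun α : Fin n → F => α ≠ 0 ∧ ∀ v, v ∉ e → α v = 0),
            (univ.filter fun ω : Om F n D => ∑ v, α v • ω.1 v = 0 ∧
              (e \ supp α).map (ω.2 (supp α)).toEmbedding ∈ T (e \ supp α).card).card := by
        simp_rw [Finset.card_filter]
        rw [Finset.sum_comm, Finset.sum_filter]
        apply Finset.sum_congr rfl
        intro α _
        by_cases h : α ≠ 0 ∧ ∀ v, v ∉ e → α v = 0
        · rw [if_pos h]
          apply Finset.sum_congr rfl
          intro ω _
          congr 1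
          simp only [Good, eq_iff_iff]
          constructor
          · rintro ⟨_, _, h3, h4⟩; exact ⟨h3, h4⟩
          · rintro ⟨h3, h4⟩; exact ⟨h.1, h.2, h3, h4⟩
        · rw [if_neg h]
          apply Finset.sum_eq_zero
          intro ω _
          rw [if_neg]
          rintro ⟨h1, h2, _, _⟩
          exact h ⟨h1, h2⟩
      have s3 : (((Fintype.card F - 1) * (univ.filter fun ω : Om F n D => e ∈ famG r T ω).card : ℕ) : ℝ)
          ≤ ((∑ α ∈ univ.filter (fun α : Fin n → F => α ≠ 0 ∧ ∀ v, v ∉ e → α v = 0),
            (univ.filter fun ω : Om F n D => ∑ v, α v • ω.1 v = 0 ∧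
              (e \ supp α).map (ω.2 (supp α)).toEmbedding ∈ T (e \ supp α).card).card : ℕ) : ℝ) := by
        exact_mod_cast (s1.trans_eq s2)
      rw [Nat.cast_mul] at s3
      refine s3.trans ?_
      rw [Nat.cast_sum]
      apply Finset.sum_le_sum
      intro α hα
      rw [mem_filter] at hα
      exact count_goodG hT1 hT3 e he α hα.2.1 hα.2.2
    -- evaluate the sum by the number of zeros
    have key2 : ∑ α ∈ univ.filter (fun α : Fin n → F => α ≠ 0 ∧ ∀ v, v ∉ e → α v = 0),
          δ (e \ supp α).card / (Fintype.card F : ℝ) ^ D * (Fintype.card (Om F n D) : ℝ)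
        = ((Fintype.card F : ℝ) - 1) * gA a r (Fintype.card F) δ * (Fintype.card (Om F n D) : ℝ) := by
      have hmap : ∀ α ∈ univ.filter (fun α : Fin n → F => α ≠ 0 ∧ ∀ v, v ∉ e → α v = 0),
          (e \ supp α).card ∈ range r := by
        intro α hα
        rw [mem_filter] at hα
        rw [mem_range]
        exact sdiff_lt he hα.2.1 hα.2.2
      rw [← Finset.sum_fiberwise_of_maps_to hmap]
      rw [gA, Finset.mul_sum, Finset.sum_mul]
      apply Finset.sum_congr rfl
      intro m hm
      rw [mem_range] at hm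
      have hcongr : ∀ α ∈ (univ.filter (fun α : Fin n → F => α ≠ 0 ∧ ∀ v, v ∉ e → α v = 0)).filter
            (fun α => (e \ supp α).card = m),
          δ (e \ supp α).card / (Fintype.card F : ℝ) ^ D * (Fintype.card (Om F n D) : ℝ)
          = δ m / (Fintype.card F : ℝ) ^ D * (Fintype.card (Om F n D) : ℝ) := by
        intro α hα
        rw [mem_filter] at hα
        rw [hα.2]
      rw [Finset.sum_congr rfl hcongr, Finset.sum_const, nsmul_eq_mul]
      have hset : ((univ.filter (fun α : Fin n → F => α ≠ 0 ∧ ∀ v, v ∉ e → α v = 0)).filter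
            (fun α => (e \ supp α).card = m)).card
          = e.card.choose m * (Fintype.card F - 1) ^ (e.card - m) := by
        rw [← supp_count e]
        congr 1
        ext α
        have hs : e \ supp α = e.filter fun v => α v = 0 := by
          ext v; simp [supp]
        simp only [mem_filter, mem_univ, true_and, hs]
        constructor
        · rintro ⟨⟨_, h2⟩, h3⟩; exact ⟨h2, h3⟩
        · rintro ⟨h2, h3⟩
          refine ⟨⟨?_, h2⟩, h3⟩
          rintro rfl
          have : (e.filter fun v => (0 : Fin n → F) v = 0) = e := by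
            ext v; simp
          rw [this, he] at h3
          omega
      rw [hset, he]
      have hp : (((Fintype.card F - 1) ^ (r - m) : ℕ) : ℝ)
          = ((Fintype.card F : ℝ) - 1) ^ (r - m - 1) * ((Fintype.card F : ℝ) - 1) := by
        rw [Nat.cast_pow, hqc, ← pow_succ]
        congr 1; omega
      rw [Nat.cast_mul, hp]
      ring
    rw [hqc] at key
    rw [key2] at key
    have : ((Fintype.card F : ℝ) - 1) * ((univ.filter fun ω : Om F n D => e ∈ famG r T ω).card : ℝ)
        ≤ ((Fintype.card F : ℝ) - 1) * (gA a r (Fintype.card F) δ * (Fintype.card (Om F n D) : ℝ)) := by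
      rw [← mul_assoc]; exact key
    exact le_of_mul_le_mul_left this hq'
  · -- failure
    intro Y hY
    have hfail : ∀ ω : Om F n D, (¬ ∃ Z ∈ famG r T ω, Z ⊆ Y) →
        ∃ α : Fin n → F, (α ≠ 0 ∧ (∀ v, v ∉ Y → α v = 0) ∧ (Y \ supp α).card < a) ∧
          ∑ v, α v • ω.1 v = 0 := by
      intro ω hω
      obtain ⟨α, h0, h1, h2⟩ := exists_dep ω.1 Y (by rw [hY, hD]; omega)
      refine ⟨α, ⟨h0, h1, ?_⟩, h2⟩
      by_contra hne
      apply hω
      have hsub : supp α ⊆ Y := by
        intro v hv
        by_contra hh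
        simp only [supp, mem_filter, mem_univ, true_and] at hv
        exact hv (h1 v hh)
      have hsne : (supp α).Nonempty := by
        by_contra hh
        rw [Finset.not_nonempty_iff_eq_empty] at hh
        apply h0
        ext v
        by_contra hv
        have : v ∈ supp α := by simp [supp]; exact hv
        rw [hh] at this
        simp at this
      set Z := Y \ supp α with hZ
      have hZcard : Z.card + (supp α).card = r + a := by
        rw [hZ, ← hY]; exact Finset.card_sdiff_add_card_eq_card hsub
      have hsc : 1 ≤ (supp α).card := Finset.card_pos.mpr hsne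
      obtain ⟨m, hm⟩ : ∃ m, Z.card = m + a := ⟨Z.card - a, by omega⟩
      have hmd : m < r := by omega
      obtain ⟨W, hW1, hW2⟩ := hT2 m hmd (Z.map (ω.2 (supp α)).toEmbedding)
        (by rw [Finset.card_map, hm])
      obtain ⟨W', hW'1, hW'2⟩ := Finset.subset_map_iff.mp hW2
      have hW'card : W'.card = m := by
        have := hT1 m hmd W hW1
        rw [hW'2, Finset.card_map] at this
        exact this
      have hdisj : Disjoint (supp α) W' := by
        rw [Finset.disjoint_left]
        intro v hv hv'
        exact (mem_sdiff.1 (hW'1 hv')).2 hv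
      refine ⟨supp α ∪ W', ?_, union_subset hsub (hW'1.trans sdiff_subset)⟩
      rw [famG, mem_filter, mem_powersetCard]
      refine ⟨⟨subset_univ _, ?_⟩, α, h0, ?_, h2, ?_⟩
      · rw [card_union_of_disjoint hdisj]; omega
      · intro v hv
        by_contra hh
        exact hv (mem_union_left _ (by simp [supp, hh]))
      · have hd : (supp α ∪ W') \ supp α = W' := by
          rw [Finset.union_sdiff_left]
          exact Finset.sdiff_eq_self_of_disjoint hdisj.symm
        rw [hd, ← hW'2, hW'card]
        exact hW1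
    have key : (Fintype.card F - 1) *
        (univ.filter fun ω : Om F n D => ¬ ∃ Z ∈ famG r T ω, Z ⊆ Y).card
        ≤ ∑ α ∈ univ.filter (fun α : Fin n → F =>
              α ≠ 0 ∧ (∀ v, v ∉ Y → α v = 0) ∧ (Y \ supp α).card < a),
            (univ.filter fun ω : Om F n D => ∑ v, α v • ω.1 v = 0).card := by
      calc (Fintype.card F - 1) * (univ.filter fun ω : Om F n D => ¬ ∃ Z ∈ famG r T ω, Z ⊆ Y).card
          = ∑ ω ∈ univ.filter (fun ω : Om F n D => ¬ ∃ Z ∈ famG r T ω, Z ⊆ Y),
              (Fintype.card F - 1) := by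
            rw [Finset.sum_const, smul_eq_mul, mul_comm]
        _ ≤ ∑ ω ∈ univ.filter (fun ω : Om F n D => ¬ ∃ Z ∈ famG r T ω, Z ⊆ Y),
              (univ.filter fun α : Fin n → F =>
                (α ≠ 0 ∧ (∀ v, v ∉ Y → α v = 0) ∧ (Y \ supp α).card < a) ∧
                  ∑ v, α v • ω.1 v = 0).card := by
            apply Finset.sum_le_sum
            intro ω hω
            rw [mem_filter] at hω
            obtain ⟨α, hα1, hα2⟩ := hfail ω hω.2
            apply scalar_count
            · exact ⟨α, by rw [mem_filter]; exact ⟨mem_univ _, hα1, hα2⟩⟩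
            · intro β hβ
              rw [mem_filter] at hβ
              exact hβ.2.1.1
            · intro β hβ c hc
              rw [mem_filter] at hβ ⊢
              refine ⟨mem_univ _, ⟨smul_ne_zero hc hβ.2.1.1, fun v hv => ?_, ?_⟩, ?_⟩
              · simp [hβ.2.1.2.1 v hv]
              · rw [supp_smul hc]; exact hβ.2.1.2.2
              · have : ∑ v, (c • β) v • ω.1 v = c • ∑ v, β v • ω.1 v := by
                  rw [Finset.smul_sum]
                  apply Finset.sum_congr rfl
                  intro v _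
                  simp [mul_smul]
                rw [this, hβ.2.2, smul_zero]
        _ ≤ ∑ ω : Om F n D,
              (univ.filter fun α : Fin n → F =>
                (α ≠ 0 ∧ (∀ v, v ∉ Y → α v = 0) ∧ (Y \ supp α).card < a) ∧
                  ∑ v, α v • ω.1 v = 0).card :=
            Finset.sum_le_sum_of_subset (filter_subset _ _)
        _ = _ := by
            simp_rw [Finset.card_filter]
            rw [Finset.sum_comm, Finset.sum_filter]
            apply Finset.sum_congr rfl
            intro α _
            by_cases h : α ≠ 0 ∧ (∀ v, v ∉ Y → α v = 0) ∧ (Y \ supp α).card < a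
            · simp only [if_pos h]
              apply Finset.sum_congr rfl
              intro ω _
              by_cases h3 : ∑ v, α v • ω.1 v = 0
              · rw [if_pos ⟨h, h3⟩, if_pos h3]
              · rw [if_neg (fun h4 => h3 h4.2), if_neg h3]
            · rw [if_neg h]
              apply Finset.sum_eq_zero
              intro ω _
              rw [if_neg (fun h4 => h h4.1)]
    have hsum : ∑ α ∈ univ.filter (fun α : Fin n → F =>
              α ≠ 0 ∧ (∀ v, v ∉ Y → α v = 0) ∧ (Y \ supp α).card < a),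
            ((univ.filter fun ω : Om F n D => ∑ v, α v • ω.1 v = 0).card : ℝ)
          ≤ ((Fintype.card F : ℝ) - 1) * gF a r (Fintype.card F) * (Fintype.card (Om F n D) : ℝ) := by
      have hmap : ∀ α ∈ univ.filter (fun α : Fin n → F =>
              α ≠ 0 ∧ (∀ v, v ∉ Y → α v = 0) ∧ (Y \ supp α).card < a),
          (Y \ supp α).card ∈ range a := by
        intro α hα
        rw [mem_filter] at hα
        rw [mem_range]
        exact hα.2.2.2
      rw [← Finset.sum_fiberwise_of_maps_to hmap]
      rw [gF, Finset.mul_sum, Finset.sum_mul]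
      apply Finset.sum_le_sum
      intro m hm
      rw [mem_range] at hm
      have hcongr : ∀ α ∈ (univ.filter (fun α : Fin n → F =>
              α ≠ 0 ∧ (∀ v, v ∉ Y → α v = 0) ∧ (Y \ supp α).card < a)).filter
            (fun α => (Y \ supp α).card = m),
          ((univ.filter fun ω : Om F n D => ∑ v, α v • ω.1 v = 0).card : ℝ)
          = (Fintype.card (Om F n D) : ℝ) / (Fintype.card F : ℝ) ^ D := by
        intro α hα
        rw [mem_filter, mem_filter] at hα
        exact dep_Om α hα.1.2.1
      rw [Finset.sum_congr rfl hcongr, Finset.sum_const, nsmul_eq_mul]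
      have hset : ((univ.filter (fun α : Fin n → F =>
              α ≠ 0 ∧ (∀ v, v ∉ Y → α v = 0) ∧ (Y \ supp α).card < a)).filter
            (fun α => (Y \ supp α).card = m)).card
          ≤ Y.card.choose m * (Fintype.card F - 1) ^ (Y.card - m) := by
        rw [← supp_count Y]
        apply Finset.card_le_card
        intro α hα
        rw [mem_filter, mem_filter] at hα
        have hs : Y \ supp α = Y.filter fun v => α v = 0 := by
          ext v; simp [supp]
        rw [mem_filter, ← hs]
        exact ⟨mem_univ _, hα.1.2.2.1, hα.2⟩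
      rw [hY] at hset
      have hp : (((Fintype.card F - 1) ^ (r + a - m) : ℕ) : ℝ)
          = ((Fintype.card F : ℝ) - 1) ^ (r + a - m - 1) * ((Fintype.card F : ℝ) - 1) := by
        rw [Nat.cast_pow, hqc, ← pow_succ]
        congr 1; omega
      have hset' : (((univ.filter (fun α : Fin n → F =>
              α ≠ 0 ∧ (∀ v, v ∉ Y → α v = 0) ∧ (Y \ supp α).card < a)).filter
            (fun α => (Y \ supp α).card = m)).card : ℝ) ≤
          ((r + a).choose m : ℝ) * (((Fintype.card F : ℝ) - 1) ^ (r + a - m - 1) *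
            ((Fintype.card F : ℝ) - 1)) := by
        rw [← hp]
        exact_mod_cast hset
      calc _ ≤ ((r + a).choose m : ℝ) * (((Fintype.card F : ℝ) - 1) ^ (r + a - m - 1) *
            ((Fintype.card F : ℝ) - 1)) *
              ((Fintype.card (Om F n D) : ℝ) / (Fintype.card F : ℝ) ^ D) :=
            mul_le_mul_of_nonneg_right hset' (by positivity)
        _ = _ := by ring
    have key' : ((Fintype.card F : ℝ) - 1) *
        ((univ.filter fun ω : Om F n D => ¬ ∃ Z ∈ famG r T ω, Z ⊆ Y).card : ℝ)
        ≤ ((Fintype.card F : ℝ) - 1) * (gF a r (Fintype.card F) * (Fintype.card (Om F n D) : ℝ)) := by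
      have h1 : (((Fintype.card F - 1) *
        (univ.filter fun ω : Om F n D => ¬ ∃ Z ∈ famG r T ω, Z ⊆ Y).card : ℕ) : ℝ)
        ≤ ((∑ α ∈ univ.filter (fun α : Fin n → F =>
              α ≠ 0 ∧ (∀ v, v ∉ Y → α v = 0) ∧ (Y \ supp α).card < a),
            (univ.filter fun ω : Om F n D => ∑ v, α v • ω.1 v = 0).card : ℕ) : ℝ) := by
        exact_mod_cast key
      rw [Nat.cast_mul, hqc, Nat.cast_sum] at h1
      refine (h1.trans hsum).trans_eq ?_
      ring
    exact le_of_mul_le_mul_left key' hq'

end Pool.Agent.J4.H41.GL
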