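import Pool.Agent.R81.UDC.Rec
import Pool.Agent.J4.H41.GL.Det

/-!
# The two-part step with an arbitrary random family on the low part, and monotonicity
-/

set_option autoImplicit false

open Finset Filter Topology

namespace Pool.Agent.J4.H41.GL

open Pool.Agent.H688R3.TuranGen Pool.Agent.H369R2.TD.Two Pool.Agent.R81.UDC

theorem turG_t (a k : ℕ) : TurG a k (t k (k + a)) := by
  intro n
  obtain ⟨F, hF, hFc⟩ := exists_cov (r := k) (m := k + a) (by omega) n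
  exact ⟨F, hF.1, hF.2, by rw [hFc]; exact c_le_t _ _ _⟩

open Classical in
theorem c_step {a r₁ r₂ n : ℕ} {ρ Φ : ℝ} (h0 : 0 ≤ ρ) (h1 : 0 ≤ Φ) (h : RndG a n r₁ ρ Φ) :
    c (r₁ + a + r₂) (r₁ + r₂ + 2 * a) n ≤
      (ρ + Φ * t r₂ (r₂ + a)) * (n.choose (r₁ + a + r₂) : ℝ) := by
  obtain ⟨Ω, i1, i2, A, hA1, hA2, hA3⟩ := h
  obtain ⟨F, hF, hFc⟩ := exists_cov (r := r₂) (m := r₂ + a) (by omega) n
  have hFc' : (F.card : ℝ) ≤ t r₂ (r₂ + a) * (n.choose r₂ : ℝ) := by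
    rw [hFc]; exact c_le_t _ _ _
  obtain ⟨π, hπ⟩ := exists_perm (d := r₁ + a) F hF.1 hFc'
  set T2 : Finset (Finset (Fin n) × Finset (Fin n)) :=
    (Pr n (r₁ + a) r₂).filter fun q => q.2.map π.toEmbedding ∈ F with hT2
  have ht0 : 0 ≤ t r₂ (r₂ + a) := t_nonneg (by omega)
  have hΩ : (0 : ℝ) < (Fintype.card Ω : ℝ) := by exact_mod_cast Fintype.card_pos
  have s1 := sum_card_le (Ω := Ω) (Pr n r₁ (r₂ + a))
    (fun ω => (Pr n r₁ (r₂ + a)).filter fun q => q.1 ∈ A ω) (c := ρ)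
    (fun q => univ.filter fun ω : Ω => q.1 ∈ A ω)
    (fun q hq => hA2 q.1 (mem_Pr.1 hq).1)
    (fun ω q => by
      rw [mem_filter, mem_filter]
      simp)
  have s2 := sum_card_le (Ω := Ω) T2
    (fun ω => T2.filter fun q => ¬ ∃ Z ∈ A ω, Z ⊆ q.1) (c := Φ)
    (fun q => univ.filter fun ω : Ω => ¬ ∃ Z ∈ A ω, Z ⊆ q.1)
    (fun q hq => hA3 q.1 (mem_Pr.1 (mem_filter.1 hq).1).1)
    (fun ω q => by
      rw [mem_filter, mem_filter]
      simp)
  obtain ⟨ω, hω⟩ : ∃ ω : Ω, (((Pr n r₁ (r₂ + a)).filter fun q => q.1 ∈ A ω).card : ℝ) +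
      ((T2.filter fun q => ¬ ∃ Z ∈ A ω, Z ⊆ q.1).card : ℝ) ≤
        ρ * (Pr n r₁ (r₂ + a)).card + Φ * T2.card := by
    by_contra hcon
    have hcon' : ∀ ω : Ω, ρ * ((Pr n r₁ (r₂ + a)).card : ℝ) + Φ * (T2.card : ℝ) <
        (((Pr n r₁ (r₂ + a)).filter fun q => q.1 ∈ A ω).card : ℝ) +
          ((T2.filter fun q => ¬ ∃ Z ∈ A ω, Z ⊆ q.1).card : ℝ) :=
      fun ω => not_le.1 fun h => hcon ⟨ω, h⟩
    have h2 : ∑ _ω : Ω, (ρ * ((Pr n r₁ (r₂ + a)).card : ℝ) + Φ * (T2.card : ℝ)) <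
        ∑ ω : Ω, ((((Pr n r₁ (r₂ + a)).filter fun q => q.1 ∈ A ω).card : ℝ) +
          ((T2.filter fun q => ¬ ∃ Z ∈ A ω, Z ⊆ q.1).card : ℝ)) :=
      sum_lt_sum_of_nonempty univ_nonempty fun ω _ => hcon' ω
    rw [sum_const, nsmul_eq_mul, card_univ, sum_add_distrib] at h2
    have s1' := s1
    have s2' := s2
    have e : (Fintype.card Ω : ℝ) * (ρ * ((Pr n r₁ (r₂ + a)).card : ℝ) + Φ * (T2.card : ℝ)) =
      ρ * (Fintype.card Ω : ℝ) * ((Pr n r₁ (r₂ + a)).card : ℝ) +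
        Φ * (Fintype.card Ω : ℝ) * (T2.card : ℝ) := by ring
    rw [e] at h2
    exact absurd (add_le_add s1' s2') (not_le.2 h2)
  set E1 := (Pr n r₁ (r₂ + a)).filter fun q => q.1 ∈ A ω with hE1
  set E2 := T2.filter fun q => ¬ ∃ Z ∈ A ω, Z ⊆ q.1 with hE2
  set E : Finset (Finset (Fin n)) := E1.image (fun q => q.1 ∪ q.2) ∪ E2.image (fun q => q.1 ∪ q.2)
    with hE
  have hcov : Cov (r₁ + a + r₂) (r₁ + r₂ + 2 * a) E := by
    constructor
    · intro e he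
      rw [hE, mem_union, mem_image, mem_image] at he
      rcases he with ⟨q, hq, rfl⟩ | ⟨q, hq, rfl⟩
      · rw [card_union_of_mem_Pr (mem_filter.1 hq).1]; ring
      · rw [card_union_of_mem_Pr (mem_filter.1 (mem_filter.1 hq).1).1]
    · intro S hS
      obtain ⟨q, hq, hqS⟩ := exists_pair (a := r₁ + a) (b := r₂ + a) S (by omega)
      obtain ⟨q1, q2, q3⟩ := mem_Pr.1 hq
      by_cases hcase : ∃ W ∈ A ω, W ⊆ q.1
      · obtain ⟨W, hW, hWq⟩ := hcase
        refine ⟨W ∪ q.2, ?_, ?_⟩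
        · rw [hE, mem_union, mem_image]
          left
          refine ⟨(W, q.2), ?_, rfl⟩
          rw [hE1, mem_filter, mem_Pr]
          exact ⟨⟨hA1 ω W hW, q2, fun x hx y hy => q3 x (hWq hx) y hy⟩, hW⟩
        · rw [← hqS]
          exact union_subset_union hWq (Subset.refl _)
      · obtain ⟨U, hU, hUq⟩ := hF.2 (q.2.map π.toEmbedding) (by rw [card_map, q2])
        obtain ⟨U', hU', rfl⟩ := Finset.subset_map_iff.mp hUq
        refine ⟨q.1 ∪ U', ?_, ?_⟩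
        · rw [hE, mem_union, mem_image, mem_image]
          right
          refine ⟨(q.1, U'), ?_, rfl⟩
          rw [hE2, mem_filter, hT2, mem_filter, mem_Pr]
          refine ⟨⟨⟨q1, ?_, fun x hx y hy => q3 x hx y (hU' hy)⟩, hU⟩, hcase⟩
          have := hF.1 _ hU
          rwa [card_map] at this
        · rw [← hqS]
          exact union_subset_union (Subset.refl _) hU'
  refine (c_le_card hcov).trans ?_
  have hb1 : ((Pr n r₁ (r₂ + a)).card : ℝ) ≤ (n.choose (r₁ + a + r₂) : ℝ) := by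
    have := Pr_card_le n r₁ (r₂ + a)
    have e : r₁ + (r₂ + a) = r₁ + a + r₂ := by ring
    rw [e] at this
    exact_mod_cast this
  have hb2 : ((Pr n (r₁ + a) r₂).card : ℝ) ≤ (n.choose (r₁ + a + r₂) : ℝ) := by
    exact_mod_cast Pr_card_le n (r₁ + a) r₂
  have hEc : (E.card : ℝ) ≤ (E1.card : ℝ) + (E2.card : ℝ) := by
    have : E.card ≤ E1.card + E2.card :=
      (card_union_le _ _).trans (add_le_add card_image_le card_image_le)
    exact_mod_cast this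
  calc (E.card : ℝ) ≤ (E1.card : ℝ) + (E2.card : ℝ) := hEc
    _ ≤ ρ * (Pr n r₁ (r₂ + a)).card + Φ * T2.card := hω
    _ ≤ ρ * (n.choose (r₁ + a + r₂) : ℝ) + Φ *
          (t r₂ (r₂ + a) * (n.choose (r₁ + a + r₂) : ℝ)) := by
        refine add_le_add (mul_le_mul_of_nonneg_left hb1 h0) (mul_le_mul_of_nonneg_left ?_ h1)
        exact hπ.trans (mul_le_mul_of_nonneg_left hb2 ht0)
    _ = _ := by ring

/-- **The step.** -/
theorem t_step {a r₁ r₂ : ℕ} {ρ Φ : ℝ} (h0 : 0 ≤ ρ) (h1 : 0 ≤ Φ) (h : ∀ n, RndG a n r₁ ρ Φ) :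
    t (r₁ + a + r₂) (r₁ + a + r₂ + a) ≤ ρ + Φ * t r₂ (r₂ + a) := by
  have e : r₁ + a + r₂ + a = r₁ + r₂ + 2 * a := by ring
  rw [e]
  refine le_of_tendsto (tendsto_c (r₁ + a + r₂) (r₁ + r₂ + 2 * a)) ?_
  filter_upwards [eventually_ge_atTop (r₁ + a + r₂)] with n hn
  rw [div_le_iff₀ (choose_pos' hn)]
  exact c_step h0 h1 (h n)

/-- the sets that remain after deleting the last point -/
theorem c_succ {r m : ℕ} (hm : r ≤ m) (n : ℕ) :
    c (r + 1) (m + 1) n ≤ t r m * (n.choose (r + 1) : ℝ) := by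
  classical
  obtain ⟨F, hF, hFc⟩ := exists_cov hm n
  have hFc' : (F.card : ℝ) ≤ t r m * (n.choose r : ℝ) := by
    rw [hFc]; exact c_le_t _ _ _
  obtain ⟨π, hπ⟩ := exists_perm (d := 1) F hF.1 hFc'
  set T2 : Finset (Finset (Fin n) × Finset (Fin n)) :=
    (Pr n 1 r).filter fun q => q.2.map π.toEmbedding ∈ F with hT2
  have hcov : Cov (r + 1) (m + 1) (T2.image fun q => q.1 ∪ q.2) := by
    constructor
    · intro e he
      rw [mem_image] at he
      obtain ⟨q, hq, rfl⟩ := he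
      rw [card_union_of_mem_Pr (mem_filter.1 hq).1]; ring
    · intro S hS
      obtain ⟨q, hq, hqS⟩ := exists_pair (a := 1) (b := m) S (by omega)
      obtain ⟨q1, q2, q3⟩ := mem_Pr.1 hq
      obtain ⟨U, hU, hUq⟩ := hF.2 (q.2.map π.toEmbedding) (by rw [card_map, q2])
      obtain ⟨U', hU', rfl⟩ := Finset.subset_map_iff.mp hUq
      refine ⟨q.1 ∪ U', ?_, ?_⟩
      · rw [mem_image]
        refine ⟨(q.1, U'), ?_, rfl⟩
        rw [hT2, mem_filter, mem_Pr]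
        refine ⟨⟨q1, ?_, fun x hx y hy => q3 x hx y (hU' hy)⟩, hU⟩
        have := hF.1 _ hU
        rwa [card_map] at this
      · rw [← hqS]
        exact union_subset_union (Subset.refl _) hU'
  refine (c_le_card hcov).trans ?_
  have hb : ((Pr n 1 r).card : ℝ) ≤ (n.choose (r + 1) : ℝ) := by
    have := Pr_card_le n 1 r
    rw [add_comm 1 r] at this
    exact_mod_cast this
  calc ((T2.image fun q => q.1 ∪ q.2).card : ℝ) ≤ (T2.card : ℝ) := by exact_mod_cast card_image_le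
    _ ≤ t r m * ((Pr n 1 r).card : ℝ) := hπ
    _ ≤ _ := mul_le_mul_of_nonneg_left hb (t_nonneg hm)

theorem t_succ {r m : ℕ} (hm : r ≤ m) : t (r + 1) (m + 1) ≤ t r m := by
  refine le_of_tendsto (tendsto_c (r + 1) (m + 1)) ?_
  filter_upwards [eventually_ge_atTop (r + 1)] with n hn
  rw [div_le_iff₀ (choose_pos' hn)]
  exact c_succ hm n

end Pool.Agent.J4.H41.GL
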