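import Pool.Agent.R81.UDC.Num
import Pool.Agent.H369R2.TD.Prime
import Pool.Agent.J4.H41.GL.Step

/-!
# The density and the failure probability of the code in terms of the binomial distribution
-/

set_option autoImplicit false

open Finset Filter Topology

namespace Pool.Agent.J4.H41.GL

open Pool.Agent.H688R3.TuranGen Pool.Agent.R81.UDC

/-- binomial weights -/
noncomputable def bw (N : ℕ) (p : ℝ) (i : ℕ) : ℝ := (N.choose i : ℝ) * p ^ i * (1 - p) ^ (N - i)

theorem bw_nonneg {N : ℕ} {p : ℝ} (h0 : 0 ≤ p) (h1 : p ≤ 1) (i : ℕ) : 0 ≤ bw N p i := by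
  unfold bw
  have : 0 ≤ 1 - p := by linarith
  positivity

theorem bw_sum (N : ℕ) (p : ℝ) : ∑ i ∈ range (N + 1), bw N p i = 1 := by
  have h := add_pow p (1 - p) N
  rw [add_sub_cancel, one_pow] at h
  rw [h]
  refine sum_congr rfl fun i _ => ?_
  unfold bw
  ring

theorem bw_var (N : ℕ) (p : ℝ) :
    ∑ i ∈ range (N + 1), (N * p - i) ^ 2 * bw N p i = N * p * (1 - p) := by
  have h := congrArg (Polynomial.eval p) (bernsteinPolynomial.variance ℝ N)
  rw [Polynomial.eval_finset_sum] at h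
  simp only [Polynomial.eval_mul, Polynomial.eval_pow, Polynomial.eval_sub, Polynomial.eval_smul,
    Polynomial.eval_X, Polynomial.eval_natCast, Polynomial.eval_one, bernsteinPolynomial,
    nsmul_eq_mul] at h
  unfold bw
  exact h

theorem cheb {N : ℕ} {p s : ℝ} (h0 : 0 ≤ p) (h1 : p ≤ 1) (hs : 0 < s) (A : Finset ℕ)
    (hA : A ⊆ range (N + 1)) (h : ∀ i ∈ A, s ≤ |N * p - i|) :
    ∑ i ∈ A, bw N p i ≤ N * p / s ^ 2 := by
  rw [le_div_iff₀ (by positivity), sum_mul]
  calc ∑ i ∈ A, bw N p i * s ^ 2 ≤ ∑ i ∈ A, (N * p - i) ^ 2 * bw N p i := by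
        refine sum_le_sum fun i hi => ?_
        have h2 : s ^ 2 ≤ (N * p - i) ^ 2 := by
          rw [← sq_abs ((N : ℝ) * p - i)]
          exact pow_le_pow_left₀ hs.le (h i hi) 2
        rw [mul_comm]
        exact mul_le_mul_of_nonneg_right h2 (bw_nonneg h0 h1 i)
    _ ≤ ∑ i ∈ range (N + 1), (N * p - i) ^ 2 * bw N p i :=
        sum_le_sum_of_subset_of_nonneg hA fun i _ _ =>
          mul_nonneg (sq_nonneg _) (bw_nonneg h0 h1 i)
    _ = N * p * (1 - p) := bw_var N p
    _ ≤ N * p := by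
        have : 0 ≤ (N : ℝ) * p := by positivity
        nlinarith

theorem B_nonneg (a k : ℕ) : 0 ≤ B a k := by
  unfold B
  exact mul_nonneg (Nat.cast_nonneg _) (t_nonneg (by omega))

/-- one factor of the weights -/
theorem weight_eq {q N j u : ℕ} (hq : 2 ≤ q) (hju : j + (u + 1) = N) :
    ((q : ℝ) - 1) ^ u / (q : ℝ) ^ (N - 1) =
      (q : ℝ) / ((q : ℝ) - 1) * ((1 / (q : ℝ)) ^ j * (1 - 1 / (q : ℝ)) ^ (u + 1)) := by
  have hq0 : (0 : ℝ) < q := by
    have : 0 < q := by omega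
    exact_mod_cast this
  have hq1 : (0 : ℝ) < (q : ℝ) - 1 := by
    have : (2 : ℝ) ≤ q := by exact_mod_cast hq
    linarith
  have e1 : 1 - 1 / (q : ℝ) = ((q : ℝ) - 1) / q := by field_simp
  have e2 : N - 1 = j + u := by omega
  rw [e1, e2, div_pow, div_pow, one_pow, pow_add, pow_succ, pow_succ]
  field_simp

theorem gA_eq {a r q : ℕ} (hq : 2 ≤ q) :
    ((r + a).choose a : ℝ) * gA a r q (fun m => t m (m + a)) =
      (q : ℝ) / ((q : ℝ) - 1) * ∑ m ∈ range r, bw (r + a) (1 / q) (m + a) * B a m := by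
  unfold gA
  rw [mul_sum, mul_sum]
  refine sum_congr rfl fun m hm => ?_
  rw [mem_range] at hm
  have hc : (r + a).choose (m + a) * (m + a).choose a = (r + a).choose a * r.choose m := by
    have h := Nat.choose_mul (n := r + a) (k := m + a) (s := a) (by omega)
    rwa [Nat.add_sub_cancel, Nat.add_sub_cancel] at h
  have hc' : ((r + a).choose (m + a) : ℝ) * ((m + a).choose a : ℝ) =
      ((r + a).choose a : ℝ) * (r.choose m : ℝ) := by exact_mod_cast hc
  have hw := weight_eq (q := q) (N := r + a) (j := m + a) (u := r - m - 1) hq (by omega)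
  have e1 : r + a - (m + a) = r - m - 1 + 1 := by omega
  unfold bw B
  rw [e1]
  calc ((r + a).choose a : ℝ) * ((r.choose m : ℝ) * ((q : ℝ) - 1) ^ (r - m - 1) /
        (q : ℝ) ^ (r + a - 1) * t m (m + a))
      = (((r + a).choose a : ℝ) * (r.choose m : ℝ)) * (((q : ℝ) - 1) ^ (r - m - 1) /
        (q : ℝ) ^ (r + a - 1)) * t m (m + a) := by ring
    _ = _ := by
        rw [← hc', hw]
        ring

theorem gF_eq {a r q : ℕ} (hr : 1 ≤ r) (hq : 2 ≤ q) :
    gF a r q = (q : ℝ) / ((q : ℝ) - 1) * ∑ m ∈ range a, bw (r + a) (1 / q) m := by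
  unfold gF
  rw [mul_sum]
  refine sum_congr rfl fun m hm => ?_
  rw [mem_range] at hm
  have hw := weight_eq (q := q) (N := r + a) (j := m) (u := r + a - m - 1) hq (by omega)
  have e1 : r + a - m = r + a - m - 1 + 1 := by omega
  unfold bw
  rw [mul_div_assoc, hw]
  rw [show (r + a - m) = r + a - m - 1 + 1 from e1]
  rw [show r + a - m - 1 + 1 - 1 = r + a - m - 1 by omega]
  ring

/-- the density of the code -/
theorem gA_le {a r q : ℕ} (hq : 2 ≤ q) {M b s μ W : ℝ} {j₀ : ℕ} (hM : 0 ≤ M)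
    (hB : ∀ m, B a m ≤ M) (hs : 0 < s) (hμ : ((r + a : ℕ) : ℝ) / q = μ)
    (h1 : (j₀ : ℝ) + a + s ≤ μ) (h2 : μ + s ≤ j₀ + a + W)
    (hb : ∀ m : ℕ, j₀ ≤ m → (m : ℝ) ≤ j₀ + W → B a m ≤ b) (hb0 : 0 ≤ b) :
    ((r + a).choose a : ℝ) * gA a r q (fun m => t m (m + a)) ≤
      (q : ℝ) / ((q : ℝ) - 1) * (M * (μ / s ^ 2) + b) := by
  have hq0 : (0 : ℝ) < q := by
    have : 0 < q := by omega
    exact_mod_cast this
  have hq2 : (2 : ℝ) ≤ q := by exact_mod_cast hq
  have hq1 : (0 : ℝ) < (q : ℝ) - 1 := by linarith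
  have hp0 : (0 : ℝ) ≤ 1 / q := by positivity
  have hp1 : (1 : ℝ) / q ≤ 1 := by rw [div_le_one hq0]; linarith
  rw [gA_eq hq]
  refine mul_le_mul_of_nonneg_left ?_ (by positivity)
  have hμ' : ((r + a : ℕ) : ℝ) * (1 / q) = μ := by rw [← hμ]; ring
  rw [← sum_filter_add_sum_filter_not (range r) (fun m : ℕ => ¬ (j₀ ≤ m ∧ (m : ℝ) ≤ j₀ + W))]
  refine add_le_add ?_ ?_
  · -- the tails
    calc ∑ m ∈ (range r).filter (fun m : ℕ => ¬ (j₀ ≤ m ∧ (m : ℝ) ≤ j₀ + W)),
          bw (r + a) (1 / q) (m + a) * B a m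
        ≤ ∑ m ∈ (range r).filter (fun m : ℕ => ¬ (j₀ ≤ m ∧ (m : ℝ) ≤ j₀ + W)),
          bw (r + a) (1 / q) (m + a) * M :=
          sum_le_sum fun m _ => mul_le_mul_of_nonneg_left (hB m) (bw_nonneg hp0 hp1 _)
      _ = M * ∑ i ∈ ((range r).filter (fun m : ℕ => ¬ (j₀ ≤ m ∧ (m : ℝ) ≤ j₀ + W))).image
            (fun m => m + a), bw (r + a) (1 / q) i := by
          rw [sum_image (fun x _ y _ h => Nat.add_right_cancel h), ← sum_mul, mul_comm]
      _ ≤ M * (μ / s ^ 2) := by
          refine mul_le_mul_of_nonneg_left ?_ hM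
          rw [← hμ']
          refine cheb hp0 hp1 hs _ ?_ ?_
          · intro i hi
            rw [mem_image] at hi
            obtain ⟨m, hm, rfl⟩ := hi
            rw [mem_filter, mem_range] at hm
            rw [mem_range]
            omega
          · intro i hi
            rw [mem_image] at hi
            obtain ⟨m, hm, rfl⟩ := hi
            rw [mem_filter] at hm
            rw [hμ']
            rw [not_and_or, not_le, not_le] at hm
            push_cast
            rcases hm.2 with h3 | h3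
            · have h4 : (m : ℝ) < j₀ := by exact_mod_cast h3
              rw [abs_of_nonneg (by linarith)]
              linarith
            · rw [abs_of_nonpos (by linarith)]
              linarith
  · -- the window
    calc ∑ m ∈ (range r).filter (fun m : ℕ => ¬ ¬ (j₀ ≤ m ∧ (m : ℝ) ≤ j₀ + W)),
          bw (r + a) (1 / q) (m + a) * B a m
        ≤ ∑ m ∈ (range r).filter (fun m : ℕ => ¬ ¬ (j₀ ≤ m ∧ (m : ℝ) ≤ j₀ + W)),
          bw (r + a) (1 / q) (m + a) * b := by
          refine sum_le_sum fun m hm => mul_le_mul_of_nonneg_left ?_ (bw_nonneg hp0 hp1 _)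
          rw [mem_filter, not_not] at hm
          exact hb m hm.2.1 hm.2.2
      _ = b * ∑ i ∈ ((range r).filter (fun m : ℕ => ¬ ¬ (j₀ ≤ m ∧ (m : ℝ) ≤ j₀ + W))).image
            (fun m => m + a), bw (r + a) (1 / q) i := by
          rw [sum_image (fun x _ y _ h => Nat.add_right_cancel h), ← sum_mul, mul_comm]
      _ ≤ b * 1 := by
          refine mul_le_mul_of_nonneg_left ?_ hb0
          refine le_trans ?_ (bw_sum (r + a) (1 / q)).le
          refine sum_le_sum_of_subset_of_nonneg ?_ fun i _ _ => bw_nonneg hp0 hp1 i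
          intro i hi
          rw [mem_image] at hi
          obtain ⟨m, hm, rfl⟩ := hi
          rw [mem_filter, mem_range] at hm
          rw [mem_range]
          omega
      _ = b := mul_one b

theorem gA_nonneg {a r q : ℕ} (hq : 2 ≤ q) : 0 ≤ gA a r q (fun m => t m (m + a)) := by
  have hq2 : (2 : ℝ) ≤ q := by exact_mod_cast hq
  have hq1 : (0 : ℝ) ≤ (q : ℝ) - 1 := by linarith
  unfold gA
  refine sum_nonneg fun m _ => ?_
  have := t_nonneg (r := m) (m := m + a) (by omega)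
  positivity

theorem gF_nonneg {a r q : ℕ} (hq : 2 ≤ q) : 0 ≤ gF a r q := by
  have hq2 : (2 : ℝ) ≤ q := by exact_mod_cast hq
  have hq1 : (0 : ℝ) ≤ (q : ℝ) - 1 := by linarith
  unfold gF
  refine sum_nonneg fun m _ => ?_
  positivity

/-- the failure probability -/
theorem gF_le {a r q : ℕ} (hr : 1 ≤ r) (hq : 2 ≤ q) {s μ : ℝ} (hs : 0 < s)
    (hμ : ((r + a : ℕ) : ℝ) / q = μ) (h1 : (a : ℝ) + s ≤ μ) :
    gF a r q ≤ (q : ℝ) / ((q : ℝ) - 1) * (μ / s ^ 2) := by
  have hq0 : (0 : ℝ) < q := by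
    have : 0 < q := by omega
    exact_mod_cast this
  have hq2 : (2 : ℝ) ≤ q := by exact_mod_cast hq
  have hq1 : (0 : ℝ) < (q : ℝ) - 1 := by linarith
  have hp0 : (0 : ℝ) ≤ 1 / q := by positivity
  have hp1 : (1 : ℝ) / q ≤ 1 := by rw [div_le_one hq0]; linarith
  have hμ' : ((r + a : ℕ) : ℝ) * (1 / q) = μ := by rw [← hμ]; ring
  rw [gF_eq hr hq]
  refine mul_le_mul_of_nonneg_left ?_ (by positivity)
  rw [← hμ']
  refine cheb hp0 hp1 hs _ ?_ ?_
  · intro i hi
    rw [mem_range] at hi ⊢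
    omega
  · intro i hi
    rw [mem_range] at hi
    rw [hμ']
    have h4 : (i : ℝ) < a := by exact_mod_cast hi
    rw [abs_of_nonneg (by linarith)]
    linarith

end Pool.Agent.J4.H41.GL
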