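import Pool.Agent.J4.H41.GL.Bin

/-!
# The normalised covering densities `C(k+a, a) t(k, k+a)` converge
-/

set_option autoImplicit false

open Finset Filter Topology

namespace Pool.Agent.J4.H41.GL

open Pool.Agent.H688R3.TuranGen Pool.Agent.R81.UDC

theorem B_bdd {a : ℕ} (ha : 1 ≤ a) : ∃ M : ℝ, 1 ≤ M ∧ ∀ k, B a k ≤ M := by
  refine ⟨max (max 1 (B a 0)) (max (B a 1) (4 + 10 * a * Real.log (3 * a))),
    (le_max_left _ _).trans (le_max_left _ _), fun k => ?_⟩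
  rcases Nat.lt_or_ge k 2 with h | h
  · interval_cases k
    · exact (le_max_right _ _).trans (le_max_left _ _)
    · exact (le_max_left _ _).trans (le_max_right _ _)
  · exact (B_le ha k h).trans ((le_max_right _ _).trans (le_max_right _ _))

theorem t_shift (a j i : ℕ) : t (j + i) (j + i + a) ≤ t j (j + a) := by
  induction i with
  | zero => exact le_refl _
  | succ i ih =>
    refine le_trans ?_ ih
    have h := t_succ (r := j + i) (m := j + i + a) (by omega)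
    have e : j + (i + 1) + a = j + i + a + 1 := by ring
    rw [e]
    exact h

/-- slow growth -/
theorem B_win {a j m : ℕ} (h : j ≤ m) :
    B a m ≤ (((m : ℝ) + 1) / ((j : ℝ) + 1)) ^ a * B a j := by
  obtain ⟨i, rfl⟩ := Nat.exists_eq_add_of_le h
  unfold B
  have h1 := choose_ratio' (show j ≤ j + i by omega) a
  have h2 := t_shift a j i
  have h3 : 0 ≤ t j (j + a) := t_nonneg (by omega)
  calc ((j + i + a).choose a : ℝ) * t (j + i) (j + i + a)
      ≤ ((j + i + a).choose a : ℝ) * t j (j + a) :=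
        mul_le_mul_of_nonneg_left h2 (Nat.cast_nonneg _)
    _ ≤ ((((j + i : ℕ) : ℝ) + 1) / ((j : ℝ) + 1)) ^ a * ((j + a).choose a : ℝ) * t j (j + a) :=
        mul_le_mul_of_nonneg_right h1 h3
    _ = _ := by ring

theorem exists_prime' {y s : ℝ} (hy : 0 < y) (hs : 0 < s) (Q : ℝ) :
    ∀ᶠ N : ℕ in atTop, ∃ q : ℕ, q.Prime ∧ Q ≤ (q : ℝ) ∧ y ≤ (N : ℝ) / q ∧
      (N : ℝ) / q ≤ y + s := by
  set η : ℝ := s / y with hη
  have hη0 : 0 < η := div_pos hs hy
  have htend : Tendsto (fun N : ℕ => (N : ℝ) / (y * (1 + η))) atTop atTop :=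
    Tendsto.atTop_div_const (by positivity) tendsto_natCast_atTop_atTop
  have h1 := htend.eventually (Pool.Agent.Helper213.Sidon.prime_between η hη0)
  have h2 := htend.eventually_ge_atTop Q
  filter_upwards [h1, h2] with N ⟨q, hq, hq1, hq2⟩ h2
  have hq0 : (0 : ℝ) < q := by exact_mod_cast hq.pos
  have e : y * (1 + η) = y + s := by rw [hη]; field_simp
  refine ⟨q, hq, h2.trans hq1.le, ?_, ?_⟩
  · rw [le_div_iff₀ hq0]
    have h5 : (q : ℝ) ≤ N / y := by
      refine hq2.trans (le_of_eq ?_)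
      field_simp
    rw [le_div_iff₀ hy] at h5
    linarith
  · rw [div_lt_iff₀ (by positivity), e] at hq1
    rw [div_le_iff₀ hq0]
    linarith

/-- **The upper bound from one value.** -/
theorem upper {a : ℕ} (ha : 1 ≤ a) {M : ℝ} (hM1 : 1 ≤ M) (hM : ∀ k, B a k ≤ M) {κ x : ℝ}
    (hx : 1 < x) (hxκ : x ^ a ≤ κ) (hκ : 1 < κ) {h : ℕ} (hh : 2 ≤ h)
    (hhx : (h : ℝ) < x * ((h : ℝ) - 1)) {θ : ℝ} (hθ : 0 < θ) (hθx : 1 + 3 * θ ≤ x) (j : ℕ) :
    ∀ᶠ k : ℕ in atTop, B a k ≤ κ ^ 3 * B a j +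
      (κ ^ 2 + κ * (h : ℝ) ^ a) * M * ((1 + a + 2 * θ) / (θ ^ 2 * ((j : ℝ) + 1))) := by
  have haR : (1 : ℝ) ≤ a := by exact_mod_cast ha
  have hj0 : (0 : ℝ) ≤ j := Nat.cast_nonneg j
  set s : ℝ := θ * ((j : ℝ) + 1) with hs
  have hs0 : 0 < s := by positivity
  set y : ℝ := (j : ℝ) + a + s with hy
  have hy0 : 0 < y := by positivity
  set ν : ℝ := (1 + a + 2 * θ) / (θ ^ 2 * ((j : ℝ) + 1)) with hν
  have hν0 : 0 < ν := by positivity
  have hhR : (2 : ℝ) ≤ h := by exact_mod_cast hh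
  have hh0 : (0 : ℝ) < h := by linarith
  -- primes for `N = k - k / h`
  have hN : Tendsto (fun k : ℕ => k - k / h) atTop atTop := by
    refine tendsto_atTop_mono (f := fun k : ℕ => k / 2) (fun k => ?_) ?_
    · have h1 : k / h ≤ k / 2 := Nat.div_le_div_left hh (by norm_num)
      omega
    · exact Nat.tendsto_div_const_atTop (by norm_num)
  have hP := hN.eventually (exists_prime' hy0 hs0 (max 2 (κ / (κ - 1))))
  have hbig : ∀ᶠ k : ℕ in atTop, (1 + x * a) / (x * ((h : ℝ) - 1) / h - 1) ≤ (k : ℝ) :=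
    tendsto_natCast_atTop_atTop.eventually_ge_atTop _
  filter_upwards [hP, hbig, hN.eventually_ge_atTop (a + 1)] with k ⟨q, hqp, hQ, hμ1, hμ2⟩ hk hNk
  have hq2 : 2 ≤ q := hqp.two_le
  have hqR : (2 : ℝ) ≤ q := by exact_mod_cast hq2
  have hq1 : (0 : ℝ) < (q : ℝ) - 1 := by linarith
  have hκ1 : 0 < κ - 1 := by linarith
  have hqκ : (q : ℝ) / ((q : ℝ) - 1) ≤ κ := by
    have h1 : κ / (κ - 1) ≤ q := (le_max_right _ _).trans hQ
    rw [div_le_iff₀ hκ1] at h1
    rw [div_le_iff₀ hq1]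
    linarith
  have hqq : 0 ≤ (q : ℝ) / ((q : ℝ) - 1) := by positivity
  obtain ⟨r₁, hr₁⟩ : ∃ r₁, k - k / h = r₁ + a := ⟨k - k / h - a, by omega⟩
  have hr1 : 1 ≤ r₁ := by omega
  set r₂ : ℕ := k / h with hr₂
  have hr2k : r₂ ≤ k := Nat.div_le_self _ _
  have hk' : k = r₁ + a + r₂ := by omega
  have hr1k : r₁ ≤ k := by
    calc r₁ ≤ r₁ + (a + r₂) := Nat.le_add_right _ _
      _ = k := by omega
  have : Fact q.Prime := ⟨hqp⟩
  have hrnd : ∀ n, RndG a n r₁ (gA a r₁ q (fun m => t m (m + a))) (gF a r₁ q) := by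
    intro n
    have h := det_rndG (ZMod q) (r := r₁) ha (δ := fun m => t m (m + a))
      (fun m _ => turG_t a m) n
    simpa [ZMod.card] using h
  have hstep := t_step (r₂ := r₂) (gA_nonneg hq2) (gF_nonneg hq2) hrnd
  rw [← hk'] at hstep
  set μ : ℝ := ((r₁ + a : ℕ) : ℝ) / q with hμ
  rw [hr₁] at hμ1 hμ2
  have hμ1' : y ≤ μ := hμ1
  have hμ2' : μ ≤ y + s := hμ2
  have hμν : μ / s ^ 2 ≤ ν := by
    rw [hν, div_le_div_iff₀ (by positivity) (by positivity), hs]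
    have h1 : μ ≤ (1 + a + 2 * θ) * ((j : ℝ) + 1) := by
      have h2 : y + s = j + a + 2 * (θ * ((j : ℝ) + 1)) := by rw [hy, hs]; ring
      nlinarith
    calc μ * (θ ^ 2 * ((j : ℝ) + 1)) ≤ (1 + a + 2 * θ) * ((j : ℝ) + 1) * (θ ^ 2 * ((j : ℝ) + 1)) :=
          mul_le_mul_of_nonneg_right h1 (by positivity)
      _ = _ := by ring
  have hμs0 : 0 ≤ μ / s ^ 2 := by positivity
  have hM0 : 0 ≤ M := by linarith
  have hBj := B_nonneg a j
  have hκ0 : 0 ≤ κ := by linarith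
  have hx0 : 0 ≤ x := by linarith
  have hA := gA_le (a := a) (r := r₁) (q := q) hq2 (M := M) (b := κ * B a j) (s := s) (μ := μ)
    (W := 3 * s) (j₀ := j) hM0 hM hs0 rfl (by rw [← hy]; exact hμ1') (by
      rw [hy] at hμ2'; linarith) (by
      intro m hjm hmW
      refine (B_win hjm).trans (mul_le_mul_of_nonneg_right ?_ hBj)
      refine le_trans (pow_le_pow_left₀ (by positivity) ?_ a) hxκ
      refine le_trans ?_ hθx
      rw [div_le_iff₀ (by positivity)]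
      rw [hs] at hmW
      nlinarith) (by positivity)
  have hF := gF_le (a := a) (r := r₁) (q := q) hr1 hq2 (s := s) (μ := μ) hs0 rfl (by
    rw [hy] at hμ1'; linarith)
  -- ratios of the binomial coefficients
  have hrat1 : ((k + a).choose a : ℝ) ≤ κ * ((r₁ + a).choose a : ℝ) := by
    refine (choose_ratio' hr1k a).trans
      (mul_le_mul_of_nonneg_right ?_ (Nat.cast_nonneg _))
    refine le_trans (pow_le_pow_left₀ (by positivity) ?_ a) hxκ
    rw [div_le_iff₀ (by positivity)]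
    have h1 : (r₂ : ℝ) ≤ k / h := Nat.cast_div_le
    have h2 : (k : ℝ) = r₁ + a + r₂ := by exact_mod_cast hk'
    have h3 : 0 < x * ((h : ℝ) - 1) / h - 1 := by
      rw [sub_pos, lt_div_iff₀ hh0]; linarith
    rw [div_le_iff₀ h3] at hk
    have h4 : (k : ℝ) * (x * ((h : ℝ) - 1) / h - 1) = x * (k - k / h) - k := by
      field_simp
    rw [h4] at hk
    have h5 : (r₁ : ℝ) ≥ k - k / h - a := by linarith
    nlinarith
  have hrat2 : ((k + a).choose a : ℝ) ≤ (h : ℝ) ^ a * ((r₂ + a).choose a : ℝ) := by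
    refine (choose_ratio' hr2k a).trans (mul_le_mul_of_nonneg_right ?_ (Nat.cast_nonneg _))
    refine pow_le_pow_left₀ (by positivity) ?_ a
    rw [div_le_iff₀ (by positivity)]
    have h1 : k + 1 ≤ h * (r₂ + 1) := Nat.lt_mul_div_succ k (by omega)
    exact_mod_cast h1
  have hgA := gA_nonneg (a := a) (r := r₁) hq2
  have hgF := gF_nonneg (a := a) (r := r₁) hq2
  have ht2 : 0 ≤ t r₂ (r₂ + a) := t_nonneg (by omega)
  have hF' : gF a r₁ q ≤ κ * ν :=
    hF.trans (mul_le_mul hqκ hμν hμs0 hκ0)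
  have hA' : ((r₁ + a).choose a : ℝ) * gA a r₁ q (fun m => t m (m + a)) ≤
      κ * (M * ν + κ * B a j) := by
    refine hA.trans (mul_le_mul hqκ ?_ (by positivity) hκ0)
    exact add_le_add (mul_le_mul_of_nonneg_left hμν hM0) le_rfl
  have hfin : B a k ≤ κ * (κ * (M * ν + κ * B a j)) + (h : ℝ) ^ a * (κ * ν * M) := by
    calc B a k = ((k + a).choose a : ℝ) * t k (k + a) := rfl
      _ ≤ ((k + a).choose a : ℝ) * (gA a r₁ q (fun m => t m (m + a)) +
            gF a r₁ q * t r₂ (r₂ + a)) := mul_le_mul_of_nonneg_left hstep (Nat.cast_nonneg _)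
      _ = ((k + a).choose a : ℝ) * gA a r₁ q (fun m => t m (m + a)) +
            ((k + a).choose a : ℝ) * (gF a r₁ q * t r₂ (r₂ + a)) := by ring
      _ ≤ κ * ((r₁ + a).choose a : ℝ) * gA a r₁ q (fun m => t m (m + a)) +
            (h : ℝ) ^ a * ((r₂ + a).choose a : ℝ) * (gF a r₁ q * t r₂ (r₂ + a)) :=
          add_le_add (mul_le_mul_of_nonneg_right hrat1 hgA)
            (mul_le_mul_of_nonneg_right hrat2 (mul_nonneg hgF ht2))
      _ = κ * (((r₁ + a).choose a : ℝ) * gA a r₁ q (fun m => t m (m + a))) +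
            (h : ℝ) ^ a * (gF a r₁ q * B a r₂) := by unfold B; ring
      _ ≤ _ := by
          refine add_le_add (mul_le_mul_of_nonneg_left hA' hκ0)
            (mul_le_mul_of_nonneg_left ?_ (by positivity))
          exact mul_le_mul hF' (hM r₂) (B_nonneg a r₂) (by positivity)
  refine hfin.trans (le_of_eq ?_)
  ring

theorem key {a : ℕ} (ha : 1 ≤ a) {ε : ℝ} (hε : 0 < ε) :
    ∃ J : ℕ, ∀ j : ℕ, J ≤ j → ∀ᶠ k : ℕ in atTop, B a k ≤ B a j + ε := by
  obtain ⟨M, hM1, hM⟩ := B_bdd ha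
  have hM0 : 0 < M := by linarith
  set κ : ℝ := 1 + min 1 (ε / (14 * M)) with hκd
  have hm0 : 0 < min 1 (ε / (14 * M)) := lt_min one_pos (by positivity)
  have hκ : 1 < κ := by linarith
  have hκ2 : κ ≤ 2 := by
    have := min_le_left 1 (ε / (14 * M))
    linarith
  have hκ3 : (κ ^ 3 - 1) * M ≤ ε / 2 := by
    have h1 : κ - 1 ≤ ε / (14 * M) := by
      have := min_le_right 1 (ε / (14 * M))
      linarith
    rw [le_div_iff₀ (by positivity)] at h1
    have h2 : κ ^ 3 - 1 ≤ 7 * (κ - 1) := by nlinarith [sq_nonneg (κ - 1)]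
    nlinarith
  have hane : a ≠ 0 := by omega
  set x : ℝ := κ ^ ((a : ℝ)⁻¹) with hxd
  have hx : 1 < x := Real.one_lt_rpow hκ (by positivity)
  have hxκ : x ^ a ≤ κ := le_of_eq (Real.rpow_inv_natCast_pow (by linarith) hane)
  obtain ⟨h, hh⟩ := exists_nat_gt (max 2 (x / (x - 1)))
  have hh2 : 2 ≤ h := by
    have : (2 : ℝ) < h := (le_max_left _ _).trans_lt hh
    exact_mod_cast this.le
  have hhx : (h : ℝ) < x * ((h : ℝ) - 1) := by
    have h1 : x / (x - 1) < h := (le_max_right _ _).trans_lt hh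
    rw [div_lt_iff₀ (by linarith)] at h1
    linarith
  set θ : ℝ := (x - 1) / 3 with hθd
  have hθ : 0 < θ := by
    rw [hθd]; linarith
  have hθx : 1 + 3 * θ ≤ x := by rw [hθd]; linarith
  set C : ℝ := (κ ^ 2 + κ * (h : ℝ) ^ a) * M * (1 + a + 2 * θ) / θ ^ 2 with hC
  have hC0 : 0 ≤ C := by positivity
  obtain ⟨J, hJ⟩ := exists_nat_gt (2 * C / ε)
  refine ⟨J, fun j hj => ?_⟩
  filter_upwards [upper ha hM1 hM hx hxκ hκ hh2 hhx hθ hθx j] with k hk
  have hjJ : (J : ℝ) ≤ j := by exact_mod_cast hj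
  have h1 : (κ ^ 2 + κ * (h : ℝ) ^ a) * M * ((1 + a + 2 * θ) / (θ ^ 2 * ((j : ℝ) + 1))) =
      C / ((j : ℝ) + 1) := by
    rw [hC]
    field_simp
  have h2 : C / ((j : ℝ) + 1) ≤ ε / 2 := by
    rw [div_lt_iff₀ hε] at hJ
    rw [div_le_iff₀ (by positivity)]
    nlinarith
  have h3 : κ ^ 3 * B a j ≤ B a j + ε / 2 := by
    have h4 : (κ ^ 3 - 1) * B a j ≤ (κ ^ 3 - 1) * M := by
      refine mul_le_mul_of_nonneg_left (hM j) ?_
      nlinarith [sq_nonneg κ]
    linarith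
  rw [h1] at hk
  linarith

theorem exists_lim {f : ℕ → ℝ} {M : ℝ} (h0 : ∀ k, 0 ≤ f k) (hM : ∀ k, f k ≤ M)
    (hkey : ∀ ε : ℝ, 0 < ε → ∃ J : ℕ, ∀ j : ℕ, J ≤ j → ∀ᶠ k : ℕ in atTop, f k ≤ f j + ε) :
    ∃ L : ℝ, Tendsto f atTop (𝓝 L) := by
  have hbA : IsBoundedUnder (· ≤ ·) atTop f := isBoundedUnder_of ⟨M, hM⟩
  have hbB : IsBoundedUnder (· ≥ ·) atTop f := isBoundedUnder_of ⟨0, h0⟩
  refine ⟨liminf f atTop, tendsto_of_le_liminf_of_limsup_le le_rfl ?_ hbA hbB⟩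
  refine le_of_forall_pos_le_add fun ε hε => ?_
  obtain ⟨J, hJ⟩ := hkey (ε / 2) (by linarith)
  have h1 : ∃ᶠ j in atTop, f j < liminf f atTop + ε / 2 :=
    frequently_lt_of_liminf_lt hbA.isCoboundedUnder_ge (by linarith)
  obtain ⟨j, hj, hjJ⟩ := (h1.and_eventually (eventually_ge_atTop J)).exists
  have h2 := hJ j hjJ
  refine limsup_le_of_le hbB.isCoboundedUnder_le ?_
  filter_upwards [h2] with k hk
  linarith

/-- **Existence of the limits.** -/
theorem B_tendsto {a : ℕ} (ha : 1 ≤ a) : ∃ L : ℝ, Tendsto (fun k => B a k) atTop (𝓝 L) := by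
  obtain ⟨M, -, hM⟩ := B_bdd ha
  exact exists_lim (fun k => B_nonneg a k) hM fun ε hε => key ha hε

end Pool.Agent.J4.H41.GL
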