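import Pool.Agent.J4.H41.GL.Lim
import Pool.Agent.TH440.DC.Main

/-!
# Every single value bounds the limit
-/

set_option autoImplicit false

open Finset Filter Topology

namespace Pool.Agent.J4.H41.GL

open Pool.Agent.H688R3.TuranGen Pool.Agent.R81.UDC

theorem exp_neg_le {l : ℝ} (hl : 0 ≤ l) : Real.exp (-l) ≤ 1 - l + l ^ 2 / 2 := by
  have h1 := Real.quadratic_le_exp_of_nonneg hl
  rw [Real.exp_neg, inv_eq_one_div, div_le_iff₀ (Real.exp_pos l)]
  have h2 : 0 ≤ 1 - l + l ^ 2 / 2 := by nlinarith [sq_nonneg (l - 1)]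
  calc (1 : ℝ) ≤ (1 - l + l ^ 2 / 2) * (1 + l + l ^ 2 / 2) := by nlinarith [sq_nonneg (l ^ 2)]
    _ ≤ _ := mul_le_mul_of_nonneg_left h1 h2

/-- lower tail of the binomial distribution -/
theorem lower_tail {N : ℕ} {p y c : ℝ} (h0 : 0 ≤ p) (h1 : p ≤ 1) (hy : 0 < y) (hyN : y ≤ N * p)
    (hc0 : 0 ≤ c) (hc : c ≤ y) (A : Finset ℕ) (hA : A ⊆ range (N + 1)) (h : ∀ i ∈ A, (i : ℝ) ≤ c) :
    ∑ i ∈ A, bw N p i ≤ Real.exp (-((y - c) ^ 2 / (2 * y))) := by
  set l : ℝ := (y - c) / y with hl
  have hl0 : 0 ≤ l := div_nonneg (by linarith) hy.le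
  have hp1 : 0 ≤ 1 - p := by linarith
  calc ∑ i ∈ A, bw N p i ≤ ∑ i ∈ A, bw N p i * Real.exp (l * (c - i)) := by
        refine sum_le_sum fun i hi => ?_
        refine le_mul_of_one_le_right (bw_nonneg h0 h1 i) (Real.one_le_exp ?_)
        exact mul_nonneg hl0 (by have := h i hi; linarith)
    _ ≤ ∑ i ∈ range (N + 1), bw N p i * Real.exp (l * (c - i)) :=
        sum_le_sum_of_subset_of_nonneg hA fun i _ _ =>
          mul_nonneg (bw_nonneg h0 h1 i) (Real.exp_pos _).le
    _ = Real.exp (l * c) * (p * Real.exp (-l) + (1 - p)) ^ N := by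
        rw [add_pow, mul_sum]
        refine sum_congr rfl fun i _ => ?_
        unfold bw
        have e : Real.exp (l * (c - i)) = Real.exp (l * c) * Real.exp (-l) ^ i := by
          rw [← Real.exp_nat_mul, ← Real.exp_add]
          congr 1
          ring
        rw [e, mul_pow]
        ring
    _ ≤ Real.exp (l * c) * Real.exp (-(p * (l - l ^ 2 / 2))) ^ N := by
        refine mul_le_mul_of_nonneg_left (pow_le_pow_left₀ (by positivity) ?_ N)
          (Real.exp_pos _).le
        have h2 := exp_neg_le hl0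
        have h3 := Real.add_one_le_exp (-(p * (l - l ^ 2 / 2)))
        nlinarith
    _ = Real.exp (l * c - N * p * (l - l ^ 2 / 2)) := by
        rw [← Real.exp_nat_mul, ← Real.exp_add]
        congr 1
        ring
    _ ≤ Real.exp (-((y - c) ^ 2 / (2 * y))) := by
        apply Real.exp_le_exp.2
        have hl1 : l ≤ 1 := by
          rw [hl, div_le_one hy]
          linarith
        have h3 : 0 ≤ l - l ^ 2 / 2 := by nlinarith
        have h4 : y * (l - l ^ 2 / 2) ≤ N * p * (l - l ^ 2 / 2) :=
          mul_le_mul_of_nonneg_right hyN h3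
        have h5 : l * c - y * (l - l ^ 2 / 2) = -((y - c) ^ 2 / (2 * y)) := by
          rw [hl]
          field_simp
          ring
        linarith

theorem bw_shift {r a m : ℕ} (hm : m ≤ r) (p : ℝ) :
    bw (r + a) p (m + a) * ((m + a).choose a : ℝ) =
      ((r + a).choose a : ℝ) * p ^ a * bw r p m := by
  have hc : (r + a).choose (m + a) * (m + a).choose a = (r + a).choose a * r.choose m := by
    have h := Nat.choose_mul (n := r + a) (k := m + a) (s := a) (by omega)
    rwa [Nat.add_sub_cancel, Nat.add_sub_cancel] at h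
  have hc' : ((r + a).choose (m + a) : ℝ) * ((m + a).choose a : ℝ) =
      ((r + a).choose a : ℝ) * (r.choose m : ℝ) := by exact_mod_cast hc
  have e : r + a - (m + a) = r - m := by omega
  unfold bw
  rw [e, pow_add]
  calc _ = (((r + a).choose (m + a) : ℝ) * ((m + a).choose a : ℝ)) *
        (p ^ m * p ^ a * (1 - p) ^ (r - m)) := by ring
    _ = _ := by rw [hc']; ring

/-- the density of the code, without loss in the upper tail -/
theorem gA_le' {a r q : ℕ} (hq : 2 ≤ q) {M y : ℝ} {j : ℕ} (hM : 0 ≤ M)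
    (hB : ∀ m, B a m ≤ M) (hμ : y ≤ ((r + a : ℕ) : ℝ) / q) (hy : (j : ℝ) + a < y) :
    ((r + a).choose a : ℝ) * gA a r q (fun m => t m (m + a)) ≤
      (q : ℝ) / ((q : ℝ) - 1) * (M * Real.exp (-((y - (j + a)) ^ 2 / (2 * y))) +
        ((((r + a : ℕ) : ℝ) / q) / ((j : ℝ) + 1)) ^ a * B a j) := by
  have hq0 : (0 : ℝ) < q := by
    have : 0 < q := by omega
    exact_mod_cast this
  have hq2 : (2 : ℝ) ≤ q := by exact_mod_cast hq
  have hq1 : (0 : ℝ) < (q : ℝ) - 1 := by linarith
  have hp0 : (0 : ℝ) ≤ 1 / q := by positivity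
  have hp1 : (1 : ℝ) / q ≤ 1 := by rw [div_le_one hq0]; linarith
  have hja : (0 : ℝ) ≤ (j : ℝ) + a := by positivity
  have hy0 : 0 < y := by linarith
  rw [gA_eq hq]
  refine mul_le_mul_of_nonneg_left ?_ (by positivity)
  have hμ' : ((r + a : ℕ) : ℝ) * (1 / q) = ((r + a : ℕ) : ℝ) / q := by ring
  rw [← sum_filter_add_sum_filter_not (range r) (fun m : ℕ => m < j)]
  refine add_le_add ?_ ?_
  · calc ∑ m ∈ (range r).filter (fun m : ℕ => m < j), bw (r + a) (1 / q) (m + a) * B a m
        ≤ ∑ m ∈ (range r).filter (fun m : ℕ => m < j), bw (r + a) (1 / q) (m + a) * M :=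
          sum_le_sum fun m _ => mul_le_mul_of_nonneg_left (hB m) (bw_nonneg hp0 hp1 _)
      _ = M * ∑ i ∈ ((range r).filter (fun m : ℕ => m < j)).image (fun m => m + a),
            bw (r + a) (1 / q) i := by
          rw [sum_image (fun x _ y _ h => Nat.add_right_cancel h), ← sum_mul, mul_comm]
      _ ≤ M * Real.exp (-((y - (j + a)) ^ 2 / (2 * y))) := by
          refine mul_le_mul_of_nonneg_left ?_ hM
          refine lower_tail hp0 hp1 hy0 (by rw [hμ']; exact hμ) hja hy.le _ ?_ ?_
          · intro i hi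
            rw [mem_image] at hi
            obtain ⟨m, hm, rfl⟩ := hi
            rw [mem_filter, mem_range] at hm
            rw [mem_range]
            omega
          · intro i hi
            rw [mem_image] at hi
            obtain ⟨m, hm, rfl⟩ := hi
            rw [mem_filter] at hm
            have h4 : (m : ℝ) < j := by exact_mod_cast hm.2
            push_cast
            linarith
  · have ht : 0 ≤ t j (j + a) := t_nonneg (by omega)
    calc ∑ m ∈ (range r).filter (fun m : ℕ => ¬ m < j), bw (r + a) (1 / q) (m + a) * B a m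
        ≤ ∑ m ∈ (range r).filter (fun m : ℕ => ¬ m < j),
            ((r + a).choose a : ℝ) * (1 / q) ^ a * t j (j + a) * bw r (1 / q) m := by
          refine sum_le_sum fun m hm => ?_
          rw [mem_filter, mem_range, not_lt] at hm
          obtain ⟨i, rfl⟩ := Nat.exists_eq_add_of_le hm.2
          have h2 := t_shift a j i
          have h3 := bw_shift (r := r) (a := a) (m := j + i) hm.1.le (1 / q)
          have h4 : 0 ≤ bw (r + a) (1 / q) (j + i + a) * (((j + i + a).choose a : ℕ) : ℝ) :=
            mul_nonneg (bw_nonneg hp0 hp1 _) (Nat.cast_nonneg _)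
          calc bw (r + a) (1 / q) (j + i + a) * B a (j + i)
              = bw (r + a) (1 / q) (j + i + a) * ((j + i + a).choose a : ℝ) *
                  t (j + i) (j + i + a) := by unfold B; ring
            _ ≤ bw (r + a) (1 / q) (j + i + a) * ((j + i + a).choose a : ℝ) * t j (j + a) :=
                mul_le_mul_of_nonneg_left h2 h4
            _ = _ := by rw [h3]; ring
      _ ≤ ((r + a).choose a : ℝ) * (1 / q) ^ a * t j (j + a) * 1 := by
          rw [← mul_sum]
          refine mul_le_mul_of_nonneg_left ?_ (by positivity)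
          refine le_trans ?_ (bw_sum r (1 / q)).le
          refine sum_le_sum_of_subset_of_nonneg ?_ fun i _ _ => bw_nonneg hp0 hp1 i
          intro i hi
          rw [mem_filter, mem_range] at hi
          rw [mem_range]
          omega
      _ ≤ ((((r + a : ℕ) : ℝ) / q) / ((j : ℝ) + 1)) ^ a * B a j := by
          have h5 : ((r + a).choose a : ℝ) ≤ ((r + a : ℕ) : ℝ) ^ a / (a.factorial : ℝ) := by
            have := Nat.choose_le_pow_div (α := ℝ) a (r + a)
            exact this
          have h6 : ((j : ℝ) + 1) ^ a / (a.factorial : ℝ) ≤ ((j + a).choose a : ℝ) := by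
            have := Nat.pow_le_choose (α := ℝ) a (j + a)
            have e : j + a + 1 - a = j + 1 := by omega
            rw [e] at this
            push_cast at this
            exact this
          have hf : (0 : ℝ) < a.factorial := by exact_mod_cast Nat.factorial_pos a
          have hj1 : (0 : ℝ) < (j : ℝ) + 1 := by positivity
          calc ((r + a).choose a : ℝ) * (1 / q) ^ a * t j (j + a) * 1
              ≤ (((r + a : ℕ) : ℝ) ^ a / (a.factorial : ℝ)) * (1 / q) ^ a * t j (j + a) * 1 := by
                gcongr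
            _ = ((((r + a : ℕ) : ℝ) / q) / ((j : ℝ) + 1)) ^ a *
                  (((j : ℝ) + 1) ^ a / (a.factorial : ℝ) * t j (j + a)) := by
                simp only [div_pow, one_pow]
                field_simp
            _ ≤ _ := by
                unfold B
                gcongr

theorem gF_le' {a r q : ℕ} (hr : 1 ≤ r) (hq : 2 ≤ q) {y : ℝ} {j : ℕ}
    (hμ : y ≤ ((r + a : ℕ) : ℝ) / q) (hy : (j : ℝ) + a < y) :
    gF a r q ≤ (q : ℝ) / ((q : ℝ) - 1) * Real.exp (-((y - (j + a)) ^ 2 / (2 * y))) := by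
  have hq0 : (0 : ℝ) < q := by
    have : 0 < q := by omega
    exact_mod_cast this
  have hq2 : (2 : ℝ) ≤ q := by exact_mod_cast hq
  have hq1 : (0 : ℝ) < (q : ℝ) - 1 := by linarith
  have hp0 : (0 : ℝ) ≤ 1 / q := by positivity
  have hp1 : (1 : ℝ) / q ≤ 1 := by rw [div_le_one hq0]; linarith
  have hja : (0 : ℝ) ≤ (j : ℝ) + a := by positivity
  have hy0 : 0 < y := by linarith
  have hμ' : ((r + a : ℕ) : ℝ) * (1 / q) = ((r + a : ℕ) : ℝ) / q := by ring
  rw [gF_eq hr hq]
  refine mul_le_mul_of_nonneg_left ?_ (by positivity)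
  refine lower_tail hp0 hp1 hy0 (by rw [hμ']; exact hμ) hja hy.le _ ?_ ?_
  · intro i hi
    rw [mem_range] at hi ⊢
    omega
  · intro i hi
    rw [mem_range] at hi
    have h4 : (i : ℝ) < a := by exact_mod_cast hi
    have h5 : (0 : ℝ) ≤ j := Nat.cast_nonneg j
    linarith

end Pool.Agent.J4.H41.GL
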