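import Pool.Agent.J4.H41.GL.Rate

/-!
# The limit is bounded by every single value
-/

set_option autoImplicit false

open Finset Filter Topology

namespace Pool.Agent.J4.H41.GL

open Pool.Agent.H688R3.TuranGen Pool.Agent.R81.UDC

/-- the right side of the bound from one value -/
noncomputable def Rh (a j h : ℕ) (M y : ℝ) : ℝ :=
  ((h : ℝ) / ((h : ℝ) - 1)) ^ a * (M * Real.exp (-((y - (j + a)) ^ 2 / (2 * y))) +
    (y / ((j : ℝ) + 1)) ^ a * B a j) + (h : ℝ) ^ a * (M * Real.exp (-((y - (j + a)) ^ 2 / (2 * y))))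

theorem upper' {a : ℕ} (ha : 1 ≤ a) {M : ℝ} (hM1 : 1 ≤ M) (hM : ∀ k, B a k ≤ M) {κ x : ℝ}
    (hx : 1 < x) (hxκ : x ^ a ≤ κ) (hκ : 1 < κ) {h : ℕ} (hh : 2 ≤ h) {y : ℝ} {j : ℕ}
    (hy : (j : ℝ) + a < y) :
    ∀ᶠ k : ℕ in atTop, B a k ≤ κ ^ 3 * Rh a j h M y := by
  have haR : (1 : ℝ) ≤ a := by exact_mod_cast ha
  have hj0 : (0 : ℝ) ≤ j := Nat.cast_nonneg j
  have hy0 : 0 < y := by linarith
  have hhR : (2 : ℝ) ≤ h := by exact_mod_cast hh
  have hh0 : (0 : ℝ) < h := by linarith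
  have hh1 : (0 : ℝ) < (h : ℝ) - 1 := by linarith
  have hx1 : 0 < x - 1 := by linarith
  set P : ℝ := Real.exp (-((y - (j + a)) ^ 2 / (2 * y))) with hP
  have hP0 : 0 < P := Real.exp_pos _
  set w : ℝ := (h : ℝ) / ((h : ℝ) - 1) with hw
  have hw0 : 0 < w := div_pos hh0 hh1
  -- primes for `N = k - k / h`
  have hN : Tendsto (fun k : ℕ => k - k / h) atTop atTop := by
    refine tendsto_atTop_mono (f := fun k : ℕ => k / 2) (fun k => ?_) ?_
    · have h1 : k / h ≤ k / 2 := Nat.div_le_div_left hh (by norm_num)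
      omega
    · exact Nat.tendsto_div_const_atTop (by norm_num)
  have hPr := hN.eventually (exists_prime' hy0 (show 0 < (x - 1) * y by positivity)
    (max 2 (κ / (κ - 1))))
  have hbig : ∀ᶠ k : ℕ in atTop, (1 + x * w * a) / (x - 1) ≤ (k : ℝ) :=
    tendsto_natCast_atTop_atTop.eventually_ge_atTop _
  filter_upwards [hPr, hbig, hN.eventually_ge_atTop (a + 1)] with k ⟨q, hqp, hQ, hμ1, hμ2⟩ hk hNk
  have hq2 : 2 ≤ q := hqp.two_le
  have hqR : (2 : ℝ) ≤ q := by exact_mod_cast hq2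
  have hq1 : (0 : ℝ) < (q : ℝ) - 1 := by linarith
  have hκ1 : 0 < κ - 1 := by linarith
  have hqκ : (q : ℝ) / ((q : ℝ) - 1) ≤ κ := by
    have h1 : κ / (κ - 1) ≤ q := (le_max_right _ _).trans hQ
    rw [div_le_iff₀ hκ1] at h1
    rw [div_le_iff₀ hq1]
    linarith
  have hqq : 0 ≤ (q : ℝ) / ((q : ℝ) - 1) := by positivity
  obtain ⟨r₁, hr₁⟩ : ∃ r₁, k - k / h = r₁ + a := ⟨k - k / h - a, by omega⟩
  have hr1 : 1 ≤ r₁ := by omega
  set r₂ : ℕ := k / h with hr₂
  have hr2k : r₂ ≤ k := Nat.div_le_self _ _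
  have hk' : k = r₁ + a + r₂ := by omega
  have hr1k : r₁ ≤ k := by
    calc r₁ ≤ r₁ + (a + r₂) := Nat.le_add_right _ _
      _ = k := by omega
  have : Fact q.Prime := ⟨hqp⟩
  have hrnd : ∀ n, RndG a n r₁ (gA a r₁ q (fun m => t m (m + a))) (gF a r₁ q) := by
    intro n
    have h := det_rndG (ZMod q) (r := r₁) ha (δ := fun m => t m (m + a))
      (fun m _ => turG_t a m) n
    simpa [ZMod.card] using h
  have hstep := t_step (r₂ := r₂) (gA_nonneg hq2) (gF_nonneg hq2) hrnd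
  rw [← hk'] at hstep
  rw [hr₁] at hμ1 hμ2
  have hM0 : 0 ≤ M := by linarith
  have hBj := B_nonneg a j
  have hκ0 : 0 ≤ κ := by linarith
  have hx0 : 0 ≤ x := by linarith
  have hμx : ((r₁ + a : ℕ) : ℝ) / q ≤ x * y := by linarith
  have hA := gA_le' (a := a) (r := r₁) (q := q) hq2 (M := M) (y := y) (j := j) hM0 hM hμ1 hy
  have hF := gF_le' (a := a) (r := r₁) (q := q) hr1 hq2 (y := y) (j := j) hμ1 hy
  rw [← hP] at hA hF
  have hpow : ((((r₁ + a : ℕ) : ℝ) / q) / ((j : ℝ) + 1)) ^ a ≤ κ * (y / ((j : ℝ) + 1)) ^ a := by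
    calc ((((r₁ + a : ℕ) : ℝ) / q) / ((j : ℝ) + 1)) ^ a ≤ (x * (y / ((j : ℝ) + 1))) ^ a := by
          refine pow_le_pow_left₀ (by positivity) ?_ a
          rw [← mul_div_assoc]
          exact div_le_div_of_nonneg_right hμx (by positivity)
      _ = x ^ a * (y / ((j : ℝ) + 1)) ^ a := by rw [mul_pow]
      _ ≤ _ := mul_le_mul_of_nonneg_right hxκ (by positivity)
  -- ratios of the binomial coefficients
  have hrat1 : ((k + a).choose a : ℝ) ≤ (κ * w ^ a) * ((r₁ + a).choose a : ℝ) := by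
    refine (choose_ratio' hr1k a).trans (mul_le_mul_of_nonneg_right ?_ (Nat.cast_nonneg _))
    calc (((k : ℝ) + 1) / ((r₁ : ℝ) + 1)) ^ a ≤ (x * w) ^ a := by
          refine pow_le_pow_left₀ (by positivity) ?_ a
          rw [div_le_iff₀ (by positivity)]
          have h1 : (r₂ : ℝ) ≤ k / h := Nat.cast_div_le
          have h2 : (k : ℝ) = r₁ + a + r₂ := by exact_mod_cast hk'
          rw [div_le_iff₀ hx1] at hk
          have h5 : (r₁ : ℝ) ≥ k - k / h - a := by linarith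
          have h6 : w * ((k : ℝ) - k / h) = k := by
            rw [hw]
            field_simp
          have h7 : x * w * (k - k / h - a) ≤ x * w * r₁ :=
            mul_le_mul_of_nonneg_left h5 (by positivity)
          have h8 : x * w * ((k : ℝ) - k / h - a) = x * k - x * w * a := by
            have : x * w * ((k : ℝ) - k / h - a) = x * (w * ((k : ℝ) - k / h)) - x * w * a := by
              ring
            rw [this, h6]
          have h9 : 0 ≤ x * w := by positivity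
          linarith
      _ = x ^ a * w ^ a := by rw [mul_pow]
      _ ≤ _ := mul_le_mul_of_nonneg_right hxκ (by positivity)
  have hrat2 : ((k + a).choose a : ℝ) ≤ (h : ℝ) ^ a * ((r₂ + a).choose a : ℝ) := by
    refine (choose_ratio' hr2k a).trans (mul_le_mul_of_nonneg_right ?_ (Nat.cast_nonneg _))
    refine pow_le_pow_left₀ (by positivity) ?_ a
    rw [div_le_iff₀ (by positivity)]
    have h1 : k + 1 ≤ h * (r₂ + 1) := Nat.lt_mul_div_succ k (by omega)
    exact_mod_cast h1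
  have hgA := gA_nonneg (a := a) (r := r₁) hq2
  have hgF := gF_nonneg (a := a) (r := r₁) hq2
  have ht2 : 0 ≤ t r₂ (r₂ + a) := t_nonneg (by omega)
  have hF' : gF a r₁ q ≤ κ * P := hF.trans (mul_le_mul_of_nonneg_right hqκ hP0.le)
  have hA' : ((r₁ + a).choose a : ℝ) * gA a r₁ q (fun m => t m (m + a)) ≤
      κ * (M * P + κ * (y / ((j : ℝ) + 1)) ^ a * B a j) := by
    refine hA.trans (mul_le_mul hqκ ?_ (by positivity) hκ0)
    exact add_le_add le_rfl (mul_le_mul_of_nonneg_right hpow hBj)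
  have hfin : B a k ≤ (κ * w ^ a) * (κ * (M * P + κ * (y / ((j : ℝ) + 1)) ^ a * B a j)) +
      (h : ℝ) ^ a * (κ * P * M) := by
    calc B a k = ((k + a).choose a : ℝ) * t k (k + a) := rfl
      _ ≤ ((k + a).choose a : ℝ) * (gA a r₁ q (fun m => t m (m + a)) +
            gF a r₁ q * t r₂ (r₂ + a)) := mul_le_mul_of_nonneg_left hstep (Nat.cast_nonneg _)
      _ = ((k + a).choose a : ℝ) * gA a r₁ q (fun m => t m (m + a)) +
            ((k + a).choose a : ℝ) * (gF a r₁ q * t r₂ (r₂ + a)) := by ring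
      _ ≤ (κ * w ^ a) * ((r₁ + a).choose a : ℝ) * gA a r₁ q (fun m => t m (m + a)) +
            (h : ℝ) ^ a * ((r₂ + a).choose a : ℝ) * (gF a r₁ q * t r₂ (r₂ + a)) :=
          add_le_add (mul_le_mul_of_nonneg_right hrat1 hgA)
            (mul_le_mul_of_nonneg_right hrat2 (mul_nonneg hgF ht2))
      _ = (κ * w ^ a) * (((r₁ + a).choose a : ℝ) * gA a r₁ q (fun m => t m (m + a))) +
            (h : ℝ) ^ a * (gF a r₁ q * B a r₂) := by unfold B; ring
      _ ≤ _ := by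
          refine add_le_add (mul_le_mul_of_nonneg_left hA' (by positivity))
            (mul_le_mul_of_nonneg_left ?_ (by positivity))
          exact mul_le_mul hF' (hM r₂) (B_nonneg a r₂) (by positivity)
  refine hfin.trans ?_
  have g1 : κ ^ 2 ≤ κ ^ 3 := pow_le_pow_right₀ hκ.le (by norm_num)
  have g2 : κ ≤ κ ^ 3 := by
    calc κ = κ ^ 1 := (pow_one κ).symm
      _ ≤ κ ^ 3 := pow_le_pow_right₀ hκ.le (by norm_num)
  have e1 : (κ * w ^ a) * (κ * (M * P + κ * (y / ((j : ℝ) + 1)) ^ a * B a j)) +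
      (h : ℝ) ^ a * (κ * P * M) = κ ^ 2 * (w ^ a * (M * P)) +
        κ ^ 3 * (w ^ a * ((y / ((j : ℝ) + 1)) ^ a * B a j)) + κ * ((h : ℝ) ^ a * (M * P)) := by ring
  have e2 : κ ^ 3 * Rh a j h M y = κ ^ 3 * (w ^ a * (M * P)) +
        κ ^ 3 * (w ^ a * ((y / ((j : ℝ) + 1)) ^ a * B a j)) + κ ^ 3 * ((h : ℝ) ^ a * (M * P)) := by
    unfold Rh
    rw [← hw, ← hP]
    ring
  rw [e1, e2]
  have q1 : 0 ≤ w ^ a * (M * P) := by positivity
  have q2 : 0 ≤ (h : ℝ) ^ a * (M * P) := by positivity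
  have := mul_le_mul_of_nonneg_right g1 q1
  have := mul_le_mul_of_nonneg_right g2 q2
  linarith

/-- the bound for the limit -/
theorem lim_le {a : ℕ} (ha : 1 ≤ a) {M : ℝ} (hM1 : 1 ≤ M) (hM : ∀ k, B a k ≤ M) {L : ℝ}
    (hL : Tendsto (fun k => B a k) atTop (𝓝 L)) {h : ℕ} (hh : 2 ≤ h) {y : ℝ} {j : ℕ}
    (hy : (j : ℝ) + a < y) : L ≤ Rh a j h M y := by
  have hane : a ≠ 0 := by omega
  have h1 : Tendsto (fun κ : ℝ => κ ^ 3 * Rh a j h M y) (𝓝[>] 1) (𝓝 (1 ^ 3 * Rh a j h M y)) :=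
    ((continuous_pow 3).mul continuous_const).continuousAt.tendsto.mono_left nhdsWithin_le_nhds
  rw [one_pow, one_mul] at h1
  refine ge_of_tendsto h1 ?_
  filter_upwards [self_mem_nhdsWithin] with κ hκ
  have hκ' : 1 < κ := hκ
  refine le_of_tendsto hL ?_
  exact upper' ha hM1 hM (x := κ ^ ((a : ℝ)⁻¹)) (Real.one_lt_rpow hκ' (by positivity))
    (le_of_eq (Real.rpow_inv_natCast_pow (by linarith) hane)) hκ' hh hy

/-- the trivial lower bound -/
theorem one_le_B {a j : ℕ} (ha : 1 ≤ a) (hj : 3 ≤ j) : 1 ≤ B a j := by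
  have h := (Pool.Agent.TH440.DC.main hj (show j < j + a by omega)).1
  have hD : (0 : ℝ) < ((j + a - 1).choose (j - 1) : ℝ) := by
    exact_mod_cast Nat.choose_pos (show j - 1 ≤ j + a - 1 by omega)
  have hDD : Pool.Agent.TH440.DC.DD j (j + a) = 1 / ((j + a - 1).choose (j - 1) : ℝ) := rfl
  have hp : 0 < Pool.Agent.TH440.DC.DD j (j + a) := by rw [hDD]; positivity
  have h1 : Pool.Agent.TH440.DC.DD j (j + a) < t j (j + a) := by
    have : 0 < Pool.Agent.TH440.DC.DD j (j + a) ^ 3 / 40 := by positivity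
    unfold t
    linarith
  rw [hDD, div_lt_iff₀ hD] at h1
  have h2 : ((j + a - 1).choose (j - 1) : ℝ) ≤ ((j + a).choose a : ℝ) := by
    have e : (j + a).choose a = (j + a).choose j := by rw [Nat.choose_symm_add]
    rw [e]
    obtain ⟨i, rfl⟩ : ∃ i, j = i + 1 := ⟨j - 1, by omega⟩
    have e2 : i + 1 + a - 1 = i + a := by omega
    have e3 : i + 1 + a = i + a + 1 := by omega
    rw [e2, e3, Nat.add_sub_cancel, Nat.choose_succ_succ]
    exact_mod_cast Nat.le_add_right _ _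
  have h3 : 0 ≤ t j (j + a) := t_nonneg (by omega)
  unfold B
  nlinarith

theorem pow_lin {A ω : ℝ} (hA : 0 ≤ A) (h0 : 0 ≤ ω) (h1 : ω ≤ 1) (n : ℕ) :
    (1 + A * ω) ^ n ≤ 1 + ((1 + A) ^ n - 1) * ω := by
  induction n with
  | zero => simp
  | succ n ih =>
    have h2 : (1 : ℝ) ≤ (1 + A) ^ n := one_le_pow₀ (by linarith)
    have h3 : 0 ≤ 1 + A * ω := by positivity
    have h4 : ((1 + A) ^ n - 1) * A * ω ^ 2 ≤ ((1 + A) ^ n - 1) * A * ω := by
      refine mul_le_mul_of_nonneg_left (by nlinarith) ?_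
      exact mul_nonneg (by linarith) hA
    calc (1 + A * ω) ^ (n + 1) = (1 + A * ω) ^ n * (1 + A * ω) := pow_succ _ _
      _ ≤ (1 + ((1 + A) ^ n - 1) * ω) * (1 + A * ω) := mul_le_mul_of_nonneg_right ih h3
      _ = 1 + ((1 + A) ^ n - 1) * ω + A * ω + ((1 + A) ^ n - 1) * A * ω ^ 2 := by ring
      _ ≤ 1 + ((1 + A) ^ n - 1) * ω + A * ω + ((1 + A) ^ n - 1) * A * ω := by linarith
      _ = _ := by ring

/-- the error function -/
noncomputable def om (j : ℕ) : ℝ := √(Real.log ((j : ℝ) + 1) / ((j : ℝ) + 1))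

theorem log_ge_one {j : ℕ} (hj : 3 ≤ j) : 1 ≤ Real.log ((j : ℝ) + 1) := by
  rw [Real.le_log_iff_exp_le (by positivity)]
  have h1 : (3 : ℝ) ≤ j := by exact_mod_cast hj
  linarith [Real.exp_one_lt_d9]

theorem om_pos {j : ℕ} (hj : 3 ≤ j) : 0 < om j := by
  unfold om
  have := log_ge_one hj
  apply Real.sqrt_pos.2
  positivity

theorem om_sq (j : ℕ) : om j ^ 2 * ((j : ℝ) + 1) = Real.log ((j : ℝ) + 1) := by
  unfold om
  rw [Real.sq_sqrt]
  · field_simp
  · apply div_nonneg _ (by positivity)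
    apply Real.log_nonneg
    have : (0 : ℝ) ≤ j := Nat.cast_nonneg j
    linarith

theorem om_le_one {j : ℕ} : om j ≤ 1 := by
  unfold om
  rw [Real.sqrt_le_one]
  have h0 : (0 : ℝ) < (j : ℝ) + 1 := by positivity
  rw [div_le_one h0]
  have := Real.log_le_sub_one_of_pos h0
  linarith

/-- **Every single value bounds the limit.** -/
theorem single {a : ℕ} (ha : 1 ≤ a) {L : ℝ} (hL : Tendsto (fun k => B a k) atTop (𝓝 L)) :
    ∃ C : ℝ, ∀ j : ℕ, 3 ≤ j → L ≤ (1 + C * om j) * B a j := by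
  obtain ⟨M, hM1, hM⟩ := B_bdd ha
  have hLM : L ≤ M := le_of_tendsto hL (Eventually.of_forall hM)
  have haR : (1 : ℝ) ≤ a := by exact_mod_cast ha
  set A : ℝ := 4 * ((a : ℝ) + 1) with hA
  have hA8 : 8 ≤ A := by rw [hA]; linarith
  refine ⟨M * A + M * a + ((1 + A) ^ (2 * a) + (2 ^ a + 1) * M), fun j hj => ?_⟩
  set ω : ℝ := om j with hω
  have hω0 : 0 < ω := om_pos hj
  have hω1 : ω ≤ 1 := om_le_one
  have hBj := one_le_B ha hj
  have hj3 : (3 : ℝ) ≤ j := by exact_mod_cast hj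
  have hj1 : (0 : ℝ) < (j : ℝ) + 1 := by positivity
  have hlog := log_ge_one hj
  have hsq := om_sq j
  rw [← hω] at hsq
  have hC0 : 0 ≤ (1 + A) ^ (2 * a) + (2 ^ a + 1) * M := by positivity
  -- the trivial cases
  have triv : 1 ≤ A * ω ∨ 1 ≤ a * ω → L ≤ (1 + (M * A + M * a +
      ((1 + A) ^ (2 * a) + (2 ^ a + 1) * M)) * ω) * B a j := by
    intro hcase
    have h1 : M ≤ (M * A + M * a) * ω := by
      rcases hcase with h | h
      · have e1 : 0 ≤ M * a * ω := by positivity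
        have e2 : M * 1 ≤ M * (A * ω) := mul_le_mul_of_nonneg_left h (by linarith)
        linarith
      · have e1 : 0 ≤ M * A * ω := by positivity
        have e2 : M * 1 ≤ M * (a * ω) := mul_le_mul_of_nonneg_left h (by linarith)
        linarith
    have h2 : 0 ≤ ((1 + A) ^ (2 * a) + (2 ^ a + 1) * M) * ω := by positivity
    have h3 : M ≤ 1 + (M * A + M * a + ((1 + A) ^ (2 * a) + (2 ^ a + 1) * M)) * ω := by linarith
    have h4 : (0 : ℝ) ≤ 1 + (M * A + M * a + ((1 + A) ^ (2 * a) + (2 ^ a + 1) * M)) * ω := by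
      linarith
    nlinarith
  by_cases hc1 : 1 ≤ A * ω
  · exact triv (Or.inl hc1)
  by_cases hc2 : 1 ≤ a * ω
  · exact triv (Or.inr hc2)
  push Not at hc1 hc2
  -- the choice of the parameters
  set y : ℝ := ((j : ℝ) + 1) * (1 + A * ω) with hy
  have hω2 : 1 ≤ ω ^ 2 * ((j : ℝ) + 1) := by rw [hsq]; exact hlog
  have haω : (a : ℝ) ≤ ω * ((j : ℝ) + 1) := by
    -- `a < 1 / ω` and `1 / ω ≤ ω (j + 1)`
    have h1 : a * ω * (ω * ((j : ℝ) + 1)) ≤ 1 * (ω * ((j : ℝ) + 1)) :=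
      mul_le_mul_of_nonneg_right hc2.le (by positivity)
    nlinarith
  have hs : A * ω * ((j : ℝ) + 1) / 2 ≤ y - (j + a) := by
    have h1 : (8 : ℝ) * (ω * ((j : ℝ) + 1)) ≤ A * (ω * ((j : ℝ) + 1)) :=
      mul_le_mul_of_nonneg_right hA8 (by positivity)
    rw [hy]
    nlinarith
  have hs0 : 0 < A * ω * ((j : ℝ) + 1) / 2 := by positivity
  have hyj : (j : ℝ) + a < y := by linarith
  have hy2 : y ≤ 2 * ((j : ℝ) + 1) := by
    rw [hy]; nlinarith
  have hy0 : 0 < y := by positivity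
  set P : ℝ := Real.exp (-((y - (j + a)) ^ 2 / (2 * y))) with hP
  have hPle : P ≤ 1 / ((j : ℝ) + 1) ^ (a + 1) := by
    have h1 : ((a : ℝ) + 1) * Real.log ((j : ℝ) + 1) ≤ (y - (j + a)) ^ 2 / (2 * y) := by
      rw [le_div_iff₀ (by positivity)]
      have h2 : (A * ω * ((j : ℝ) + 1) / 2) ^ 2 ≤ (y - (j + a)) ^ 2 :=
        pow_le_pow_left₀ hs0.le hs 2
      have h3 : (A * ω * ((j : ℝ) + 1) / 2) ^ 2 =
          A ^ 2 / 4 * ((j : ℝ) + 1) * (ω ^ 2 * ((j : ℝ) + 1)) := by ring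
      rw [h3, hsq] at h2
      refine le_trans ?_ h2
      have h4 : ((a : ℝ) + 1) * Real.log ((j : ℝ) + 1) * (2 * y) ≤
          ((a : ℝ) + 1) * Real.log ((j : ℝ) + 1) * (4 * ((j : ℝ) + 1)) :=
        mul_le_mul_of_nonneg_left (by linarith) (by positivity)
      refine h4.trans ?_
      have h5 : 4 * ((a : ℝ) + 1) ≤ A ^ 2 / 4 := by rw [hA]; nlinarith
      calc ((a : ℝ) + 1) * Real.log ((j : ℝ) + 1) * (4 * ((j : ℝ) + 1))
          = (4 * ((a : ℝ) + 1)) * (((j : ℝ) + 1) * Real.log ((j : ℝ) + 1)) := by ring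
        _ ≤ (A ^ 2 / 4) * (((j : ℝ) + 1) * Real.log ((j : ℝ) + 1)) :=
            mul_le_mul_of_nonneg_right h5 (by positivity)
        _ = _ := by ring
    calc P ≤ Real.exp (-(((a : ℝ) + 1) * Real.log ((j : ℝ) + 1))) := by
          apply Real.exp_le_exp.2
          linarith
      _ = 1 / ((j : ℝ) + 1) ^ (a + 1) := by
          rw [Real.exp_neg]
          have : ((a : ℝ) + 1) * Real.log ((j : ℝ) + 1) =
              ((a + 1 : ℕ) : ℝ) * Real.log ((j : ℝ) + 1) := by push_cast; ring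
          rw [this, Real.exp_nat_mul, Real.exp_log hj1, one_div]
  have hP0 : 0 < P := Real.exp_pos _
  -- the number of parts
  set sj : ℝ := √((j : ℝ) + 1) with hsj
  have hsj2 : sj * sj = (j : ℝ) + 1 := Real.mul_self_sqrt hj1.le
  have hsj0 : 0 < sj := Real.sqrt_pos.2 hj1
  have hsjge : 2 ≤ sj := by nlinarith
  set h : ℕ := ⌈sj⌉₊ + 1 with hh
  have hceil1 : sj ≤ (⌈sj⌉₊ : ℝ) := Nat.le_ceil _
  have hceil2 : (⌈sj⌉₊ : ℝ) < sj + 1 := Nat.ceil_lt_add_one hsj0.le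
  have hhR : (h : ℝ) = (⌈sj⌉₊ : ℝ) + 1 := by rw [hh]; push_cast; ring
  have hh2 : 2 ≤ h := by
    have : (2 : ℝ) ≤ h := by rw [hhR]; linarith
    exact_mod_cast this
  have hhj : (h : ℝ) ≤ (j : ℝ) + 1 := by
    rw [hhR, ← hsj2]
    nlinarith
  have hmain := lim_le ha hM1 hM hL hh2 hyj
  -- estimates
  have e1 : (h : ℝ) / ((h : ℝ) - 1) ≤ 1 + ω := by
    have h1 : (0 : ℝ) < (h : ℝ) - 1 := by rw [hhR]; linarith
    rw [div_le_iff₀ h1]
    have h2 : 1 ≤ ω * ((h : ℝ) - 1) := by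
      have h3 : sj ≤ (h : ℝ) - 1 := by rw [hhR]; linarith
      have h4 : 1 ≤ ω * sj := by
        have h5 : 1 ≤ (ω * sj) ^ 2 := by
          rw [mul_pow, pow_two sj, hsj2]
          exact hω2
        have h6 : 0 < ω * sj := by positivity
        nlinarith
      have h7 := mul_le_mul_of_nonneg_left h3 hω0.le
      linarith
    linarith
  have e1' : (0 : ℝ) ≤ (h : ℝ) / ((h : ℝ) - 1) := by
    have h1 : (0 : ℝ) < (h : ℝ) - 1 := by rw [hhR]; linarith
    positivity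
  have e2 : y / ((j : ℝ) + 1) = 1 + A * ω := by rw [hy]; field_simp
  have e3 : 1 / ((j : ℝ) + 1) ≤ ω := by
    rw [div_le_iff₀ hj1]
    nlinarith
  have e4 : P ≤ ω := by
    refine hPle.trans (le_trans ?_ e3)
    apply one_div_le_one_div_of_le hj1
    calc (j : ℝ) + 1 = ((j : ℝ) + 1) ^ 1 := (pow_one _).symm
      _ ≤ ((j : ℝ) + 1) ^ (a + 1) := pow_le_pow_right₀ (by linarith) (by omega)
  have e5 : (h : ℝ) ^ a * P ≤ ω := by
    calc (h : ℝ) ^ a * P ≤ ((j : ℝ) + 1) ^ a * (1 / ((j : ℝ) + 1) ^ (a + 1)) :=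
          mul_le_mul (pow_le_pow_left₀ (by positivity) hhj a) hPle hP0.le (by positivity)
      _ = 1 / ((j : ℝ) + 1) := by
          rw [pow_succ]
          field_simp
      _ ≤ ω := e3
  have e6 : (1 + ω) ^ a ≤ 2 ^ a := pow_le_pow_left₀ (by linarith) (by linarith) a
  have e7 : (1 + ω) ^ a * (1 + A * ω) ^ a ≤ 1 + (1 + A) ^ (2 * a) * ω := by
    have h1 : (1 + ω) ^ a ≤ (1 + A * ω) ^ a := pow_le_pow_left₀ (by linarith) (by nlinarith) a
    have h2 := pow_lin (show 0 ≤ A by linarith) hω0.le hω1 (2 * a)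
    calc (1 + ω) ^ a * (1 + A * ω) ^ a ≤ (1 + A * ω) ^ a * (1 + A * ω) ^ a :=
          mul_le_mul_of_nonneg_right h1 (by positivity)
      _ = (1 + A * ω) ^ (2 * a) := by rw [← pow_add]; congr 1; ring
      _ ≤ 1 + ((1 + A) ^ (2 * a) - 1) * ω := h2
      _ ≤ _ := by nlinarith
  have hBM : 0 ≤ B a j := B_nonneg a j
  have hfin : L ≤ (1 + ω) ^ a * (M * P) + (1 + ω) ^ a * (1 + A * ω) ^ a * B a j +
      M * ((h : ℝ) ^ a * P) := by
    refine hmain.trans ?_
    unfold Rh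
    rw [← hP, e2]
    have h1 : ((h : ℝ) / ((h : ℝ) - 1)) ^ a ≤ (1 + ω) ^ a := pow_le_pow_left₀ e1' e1 a
    have h2 : 0 ≤ M * P + (1 + A * ω) ^ a * B a j := by positivity
    have h3 := mul_le_mul_of_nonneg_right h1 h2
    calc _ ≤ (1 + ω) ^ a * (M * P + (1 + A * ω) ^ a * B a j) + (h : ℝ) ^ a * (M * P) := by
          linarith
      _ = _ := by ring
  have f1 : (1 + ω) ^ a * (M * P) ≤ 2 ^ a * (M * ω) :=
    mul_le_mul e6 (mul_le_mul_of_nonneg_left e4 (by linarith)) (by positivity) (by positivity)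
  have f2 : (1 + ω) ^ a * (1 + A * ω) ^ a * B a j ≤ (1 + (1 + A) ^ (2 * a) * ω) * B a j :=
    mul_le_mul_of_nonneg_right e7 hBM
  have f3 : M * ((h : ℝ) ^ a * P) ≤ M * ω := mul_le_mul_of_nonneg_left e5 (by linarith)
  have f4 : (2 ^ a + 1) * M * ω ≤ (2 ^ a + 1) * M * ω * B a j :=
    le_mul_of_one_le_right (by positivity) hBj
  have f5 : 0 ≤ (M * A + M * a) * ω * B a j := by positivity
  calc L ≤ 2 ^ a * (M * ω) + (1 + (1 + A) ^ (2 * a) * ω) * B a j + M * ω := by linarith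
    _ = (1 + (1 + A) ^ (2 * a) * ω) * B a j + (2 ^ a + 1) * M * ω := by ring
    _ ≤ (1 + (1 + A) ^ (2 * a) * ω) * B a j + (2 ^ a + 1) * M * ω * B a j +
          (M * A + M * a) * ω * B a j := by linarith
    _ = _ := by ring

end Pool.Agent.J4.H41.GL
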